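import Pool.Agent.Lib.MP_69d199_co.Conn

/-!
# Drawing a noncrossing arc system in a half grid
-/

set_option autoImplicit false

namespace Pool.Agent.Lib.MP_69d199_co

/-- the infinite grid -/
def zgrid : SimpleGraph (ℤ × ℤ) where
  Adj p q := |p.1 - q.1| + |p.2 - q.2| = 1
  symm := ⟨fun p q h => by rw [abs_sub_comm q.1, abs_sub_comm q.2]; exact h⟩
  loopless := ⟨fun p h => by simp at h⟩

lemma zgrid_adj_h (x y : ℤ) : zgrid.Adj (x, y) (x + 1, y) := by
  simp [zgrid]

lemma zgrid_adj_v (x y : ℤ) : zgrid.Adj (x, y) (x, y + 1) := by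
  simp [zgrid]

lemma join_vert {S : Set (ℤ × ℤ)} (c y₁ y₂ : ℤ) (h : ∀ y ∈ Set.uIcc y₁ y₂, (c, y) ∈ S) :
    Join zgrid S (c, y₁) (c, y₂) := by
  have key : ∀ (k : ℕ) (y : ℤ), (∀ z, y ≤ z → z ≤ y + k → (c, z) ∈ S) →
      Join zgrid S (c, y) (c, y + k) := by
    intro k
    induction k with
    | zero => intro y _; simpa using Join.refl S (c, y)
    | succ k ih =>
      intro y hy
      have h1 := ih y (fun z h1 h2 => hy z h1 (by push_cast; omega))
      have h2 := zgrid_adj_v c (y + k)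
      have e : y + ((k + 1 : ℕ) : ℤ) = y + k + 1 := by push_cast; ring
      rw [e]
      exact h1.trans (Join.single h2 (hy _ (by omega) (by push_cast; omega))
        (hy _ (by omega) (by push_cast; omega)))
  rcases le_total y₁ y₂ with h12 | h12
  · have := key (y₂ - y₁).toNat y₁ (fun z h1 h2 => h z (by
      rw [Set.uIcc_of_le h12]; constructor <;> omega))
    have e : y₁ + ((y₂ - y₁).toNat : ℤ) = y₂ := by omega
    rwa [e] at this
  · have := key (y₁ - y₂).toNat y₂ (fun z h1 h2 => h z (by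
      rw [Set.uIcc_of_ge h12]; constructor <;> omega))
    have e : y₂ + ((y₁ - y₂).toNat : ℤ) = y₁ := by omega
    rw [e] at this
    exact this.symm

lemma join_horiz {S : Set (ℤ × ℤ)} (y x₁ x₂ : ℤ) (h12 : x₁ ≤ x₂)
    (h : ∀ x, x₁ ≤ x → x ≤ x₂ → (x, y) ∈ S) : Join zgrid S (x₁, y) (x₂, y) := by
  have key : ∀ (k : ℕ) (x : ℤ), (∀ z, x ≤ z → z ≤ x + k → (z, y) ∈ S) →
      Join zgrid S (x, y) (x + k, y) := by
    intro k
    induction k with
    | zero => intro x _; simpa using Join.refl S (x, y)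
    | succ k ih =>
      intro x hx
      have h1 := ih x (fun z h1 h2 => hx z h1 (by push_cast; omega))
      have h2 := zgrid_adj_h (x + k) y
      have e : x + ((k + 1 : ℕ) : ℤ) = x + k + 1 := by push_cast; ring
      rw [e]
      exact h1.trans (Join.single h2 (hx _ (by omega) (by push_cast; omega))
        (hx _ (by omega) (by push_cast; omega)))
  have := key (x₂ - x₁).toNat x₁ (fun z h1 h2 => h z (by omega) (by omega))
  have e : x₁ + ((x₂ - x₁).toNat : ℤ) = x₂ := by omega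
  rwa [e] at this

variable {L : ℕ}

/-- the lengths of the arcs at the position `p`, and `0` -/
def Len (R : Fin L → Fin L → Prop) (p : Fin L) (k : ℕ) : Prop :=
  k = 0 ∨ (∃ q, R p q ∧ k = q.val - p.val) ∨ (∃ q, R q p ∧ k = p.val - q.val)

/-- the part of the drawing belonging to the position `p` in one half grid -/
def Arm (R : Fin L → Fin L → Prop) (ρ : ℕ → ℤ) (col : Fin L → ℤ) (p : Fin L) : Set (ℤ × ℤ) :=
  {z | z.1 = col p ∧ ∃ k, Len R p k ∧ z.2 ∈ Set.uIcc (ρ 0) (ρ k)} ∪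
  {z | ∃ q, R p q ∧ z.2 = ρ (q.val - p.val) ∧ col p ≤ z.1 ∧ z.1 < col q}

/-- noncrossing relation -/
structure NC (R : Fin L → Fin L → Prop) : Prop where
  lt : ∀ a b, R a b → a < b
  nc : ∀ a b c d, R a b → R c d → a < c → c < b → b < d → False

/-- rows -/
structure Rows (ρ : ℕ → ℤ) : Prop where
  inj : Function.Injective ρ
  le : ∀ k k', ρ k ∈ Set.uIcc (ρ 0) (ρ k') → k ≤ k'

lemma rows_of_strictMono {ρ : ℕ → ℤ} (h : StrictMono ρ) : Rows ρ := by
  refine ⟨h.injective, fun k k' hk => ?_⟩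
  rw [Set.uIcc_of_le (h.monotone (Nat.zero_le _))] at hk
  exact h.le_iff_le.1 hk.2

lemma rows_of_strictAnti {ρ : ℕ → ℤ} (h : StrictAnti ρ) : Rows ρ := by
  refine ⟨h.injective, fun k k' hk => ?_⟩
  rw [Set.uIcc_of_ge (h.antitone (Nat.zero_le _))] at hk
  exact h.le_iff_ge.1 hk.1

variable {R : Fin L → Fin L → Prop} {ρ : ℕ → ℤ} {col : Fin L → ℤ}

lemma base_mem_arm (p : Fin L) : (col p, ρ 0) ∈ Arm R ρ col p :=
  Or.inl ⟨rfl, 0, Or.inl rfl, by simp⟩

lemma arm_join_base (hR : NC R) {p : Fin L} {z : ℤ × ℤ} (hz : z ∈ Arm R ρ col p) :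
    Join zgrid (Arm R ρ col p) z (col p, ρ 0) := by
  have vert : ∀ k y, Len R p k → y ∈ Set.uIcc (ρ 0) (ρ k) →
      Join zgrid (Arm R ρ col p) (col p, y) (col p, ρ 0) := by
    intro k y hk hy
    apply join_vert
    intro y' hy'
    refine Or.inl ⟨rfl, k, hk, ?_⟩
    exact Set.uIcc_subset_uIcc hy Set.left_mem_uIcc hy'
  rcases hz with ⟨h1, k, hk, hy⟩ | ⟨q, hq, h1, h2, h3⟩
  · have := vert k z.2 hk hy
    have hz' : z = (col p, z.2) := Prod.ext h1 rfl
    rw [hz']
    exact this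
  · have hl : Len R p (q.val - p.val) := Or.inr (Or.inl ⟨q, hq, rfl⟩)
    have h4 := vert _ (ρ (q.val - p.val)) hl Set.right_mem_uIcc
    have h5 : Join zgrid (Arm R ρ col p) (col p, ρ (q.val - p.val)) (z.1, ρ (q.val - p.val)) := by
      apply join_horiz _ _ _ h2
      intro x hx1 hx2
      exact Or.inr ⟨q, hq, rfl, hx1, lt_of_le_of_lt hx2 h3⟩
    have hz' : z = (z.1, ρ (q.val - p.val)) := Prod.ext rfl h1
    rw [hz']
    exact h5.symm.trans h4

lemma arm_disjoint_aux (hR : NC R) (hρ : Rows ρ) (hcol : StrictMono col) {p q : Fin L}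
    (hpq : p < q) {z : ℤ × ℤ} (hp : z ∈ Arm R ρ col p) (hq : z ∈ Arm R ρ col q) : False := by
  rcases hp with ⟨h1, k, hk, hy⟩ | ⟨p', hp', h1, h2, h3⟩
  · rcases hq with ⟨g1, k', hk', gy⟩ | ⟨q', hq', g1, g2, g3⟩
    · have := hcol hpq
      omega
    · have := hcol hpq
      omega
  · have hpp' := hR.lt _ _ hp'
    rcases hq with ⟨g1, k', hk', gy⟩ | ⟨q', hq', g1, g2, g3⟩
    · have hqp' : q < p' := by
        rw [g1] at h3
        exact hcol.lt_iff_lt.1 h3
      rw [h1] at gy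
      have hle := hρ.le _ _ gy
      have a1 : p.val < q.val := hpq
      have a2 : q.val < p'.val := hqp'
      rcases hk' with rfl | ⟨q', hq', rfl⟩ | ⟨q', hq', rfl⟩
      · omega
      · have a3 : q.val < q'.val := hR.lt _ _ hq'
        have a4 : ¬ p' < q' := fun h => hR.nc _ _ _ _ hp' hq' hpq hqp' h
        have a5 : q'.val ≤ p'.val := not_lt.1 a4
        omega
      · have a3 : q'.val < q.val := hR.lt _ _ hq'
        have a4 : ¬ q' < p := fun h => hR.nc _ _ _ _ hq' hp' h hpq hqp'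
        have a5 : p.val ≤ q'.val := not_lt.1 a4
        omega
    · have hqq' := hR.lt _ _ hq'
      have e : p'.val - p.val = q'.val - q.val := hρ.inj (h1.symm.trans g1)
      have hqp' : q < p' := hcol.lt_iff_lt.1 (lt_of_le_of_lt g2 h3)
      refine hR.nc _ _ _ _ hp' hq' hpq hqp' ?_
      have a1 : p.val < q.val := hpq
      have a2 : q.val < p'.val := hqp'
      have a3 : q.val < q'.val := hqq'
      have a4 : p.val < p'.val := hpp'
      show p'.val < q'.val
      omega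

lemma arm_disjoint (hR : NC R) (hρ : Rows ρ) (hcol : StrictMono col) {p q : Fin L}
    (hpq : p ≠ q) : Disjoint (Arm R ρ col p) (Arm R ρ col q) := by
  rw [Set.disjoint_left]
  intro z hz hz'
  rcases lt_or_gt_of_ne hpq with h | h
  · exact arm_disjoint_aux hR hρ hcol h hz hz'
  · exact arm_disjoint_aux hR hρ hcol h hz' hz

/-- the arms meet the middle row only in the base points -/
lemma arm_base_row (hR : NC R) (hρ : Rows ρ) {p : Fin L} {z : ℤ × ℤ}
    (hz : z ∈ Arm R ρ col p) (h0 : z.2 = ρ 0) : z.1 = col p := by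
  rcases hz with ⟨h1, -⟩ | ⟨q, hq, h1, -⟩
  · exact h1
  · exfalso
    have h2 := hR.lt _ _ hq
    have h3 : q.val - p.val = 0 := hρ.inj (h1.symm.trans h0)
    have h4 : p.val < q.val := h2
    omega

lemma arm_up {ρ : ℕ → ℤ} (h : StrictMono ρ) {p : Fin L} {z : ℤ × ℤ}
    (hz : z ∈ Arm R ρ col p) : ρ 0 ≤ z.2 := by
  rcases hz with ⟨-, k, -, hy⟩ | ⟨q, -, h1, -⟩
  · rw [Set.uIcc_of_le (h.monotone (Nat.zero_le _))] at hy
    exact hy.1
  · rw [h1]; exact h.monotone (Nat.zero_le _)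

lemma arm_down {ρ : ℕ → ℤ} (h : StrictAnti ρ) {p : Fin L} {z : ℤ × ℤ}
    (hz : z ∈ Arm R ρ col p) : z.2 ≤ ρ 0 := by
  rcases hz with ⟨-, k, -, hy⟩ | ⟨q, -, h1, -⟩
  · rw [Set.uIcc_of_ge (h.antitone (Nat.zero_le _))] at hy
    exact hy.2
  · rw [h1]; exact h.antitone (Nat.zero_le _)

/-- an arc `pq` gives an edge between the arms of `p` and `q` -/
lemma arm_adj (hR : NC R) (hcol : StrictMono col) {p q : Fin L} (h : R p q) :
    ∃ x ∈ Arm R ρ col p, ∃ y ∈ Arm R ρ col q, zgrid.Adj x y := by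
  have h1 := hcol (hR.lt _ _ h)
  refine ⟨(col q - 1, ρ (q.val - p.val)), Or.inr ⟨q, h, rfl, by simp only; omega,
    by simp only; omega⟩, (col q, ρ (q.val - p.val)), Or.inl ⟨rfl, q.val - p.val,
    Or.inr (Or.inr ⟨p, h, rfl⟩), Set.right_mem_uIcc⟩, ?_⟩
  have := zgrid_adj_h (col q - 1) (ρ (q.val - p.val))
  simpa using this

end Pool.Agent.Lib.MP_69d199_co
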