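import Mathlib

/-!
# Connected vertex sets
-/

set_option autoImplicit false

namespace Pool.Agent.Lib.MP_69d199_co

variable {W : Type} {G : SimpleGraph W}

/-- `a` and `b` are joined inside `T` -/
def Join (G : SimpleGraph W) (T : Set W) (a b : W) : Prop :=
  Relation.ReflTransGen (fun x y => G.Adj x y ∧ x ∈ T ∧ y ∈ T) a b

lemma Join.refl (T : Set W) (a : W) : Join G T a a := Relation.ReflTransGen.refl

lemma Join.trans {T : Set W} {a b c : W} (h : Join G T a b) (h' : Join G T b c) :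
    Join G T a c := Relation.ReflTransGen.trans h h'

lemma Join.symm {T : Set W} {a b : W} (h : Join G T a b) : Join G T b a := by
  induction h with
  | refl => exact Join.refl T a
  | tail _ h ih =>
    exact Relation.ReflTransGen.head ⟨h.1.symm, h.2.2, h.2.1⟩ ih

lemma Join.mono {T T' : Set W} {a b : W} (h : Join G T a b) (hT : T ⊆ T') : Join G T' a b :=
  Relation.ReflTransGen.mono (p := fun x y => G.Adj x y ∧ x ∈ T' ∧ y ∈ T')
    (fun _ _ h => ⟨h.1, hT h.2.1, hT h.2.2⟩) _ _ h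

lemma Join.single {T : Set W} {a b : W} (h : G.Adj a b) (ha : a ∈ T) (hb : b ∈ T) :
    Join G T a b := Relation.ReflTransGen.single ⟨h, ha, hb⟩

/-- connected set of vertices -/
def Conn (G : SimpleGraph W) (T : Set W) : Prop :=
  T.Nonempty ∧ ∀ a ∈ T, ∀ b ∈ T, Join G T a b

lemma conn_of_base {T : Set W} (c : W) (hc : c ∈ T) (h : ∀ a ∈ T, Join G T a c) : Conn G T :=
  ⟨⟨c, hc⟩, fun a ha b hb => (h a ha).trans (h b hb).symm⟩

lemma Conn.connected {T : Set W} (h : Conn G T) : (G.induce T).Connected := by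
  rw [SimpleGraph.connected_iff]
  refine ⟨?_, h.1.to_subtype⟩
  have key : ∀ a b (_ : Join G T a b) (ha : a ∈ T), ∃ hb : b ∈ T,
      (G.induce T).Reachable ⟨a, ha⟩ ⟨b, hb⟩ := by
    intro a b hab ha
    induction hab with
    | refl => exact ⟨ha, SimpleGraph.Reachable.refl _⟩
    | tail _ h ih =>
      obtain ⟨hb, hr⟩ := ih
      refine ⟨h.2.2, hr.trans (SimpleGraph.Adj.reachable ?_)⟩
      exact h.1
  rintro ⟨a, ha⟩ ⟨b, hb⟩
  exact (key a b (h.2 a ha b hb) ha).2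

lemma conn_of_connected {T : Set W} (h : (G.induce T).Connected) : Conn G T := by
  rw [SimpleGraph.connected_iff] at h
  obtain ⟨h1, ⟨x⟩⟩ := h
  refine ⟨⟨x.1, x.2⟩, fun a ha b hb => ?_⟩
  obtain ⟨w⟩ := h1 ⟨a, ha⟩ ⟨b, hb⟩
  have key : ∀ (u v : T) (_ : (G.induce T).Walk u v), Join G T u.1 v.1 := by
    intro u v w
    induction w with
    | nil => exact Join.refl _ _
    | cons h _ ih =>
      rename_i u v w' _
      have h' : G.Adj u.1 v.1 := h
      exact (Join.single (T := T) h' u.2 v.2).trans ih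
  exact key _ _ w

/-- union of connected sets with a common point -/
lemma Conn.biUnion {ι : Type} {S : Set ι} {B : ι → Set W} (hS : S.Nonempty)
    (hB : ∀ i ∈ S, Conn G (B i)) (hadj : ∀ i ∈ S, ∀ j ∈ S, ∃ a ∈ B i, ∃ b ∈ B j,
      Join G (⋃ i ∈ S, B i) a b) : Conn G (⋃ i ∈ S, B i) := by
  obtain ⟨i₀, hi₀⟩ := hS
  obtain ⟨⟨c, hc⟩, -⟩ := hB i₀ hi₀
  refine ⟨⟨c, Set.mem_biUnion hi₀ hc⟩, fun a ha b hb => ?_⟩
  simp only [Set.mem_iUnion] at ha hb
  obtain ⟨i, hi, ha⟩ := ha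
  obtain ⟨j, hj, hb⟩ := hb
  obtain ⟨a', ha', b', hb', h⟩ := hadj i hi j hj
  exact (((hB i hi).2 a ha a' ha').mono (Set.subset_biUnion_of_mem hi)).trans
    (h.trans (((hB j hj).2 b' hb' b hb).mono (Set.subset_biUnion_of_mem hj)))

/-- transfer of connectedness along a minor model -/
lemma Conn.transfer {I : Type} {Q : SimpleGraph I} {S : Set I} {B : I → Set W} (hS : Conn Q S)
    (hB : ∀ i ∈ S, Conn G (B i))
    (hadj : ∀ i ∈ S, ∀ j ∈ S, Q.Adj i j → ∃ x ∈ B i, ∃ y ∈ B j, G.Adj x y) :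
    Conn G (⋃ i ∈ S, B i) := by
  refine Conn.biUnion hS.1 hB ?_
  intro i hi j hj
  obtain ⟨⟨a, ha⟩, -⟩ := hB i hi
  have key : ∀ j (_ : Join Q S i j), ∃ b ∈ B j, Join G (⋃ i ∈ S, B i) a b := by
    intro j hij
    induction hij with
    | refl => exact ⟨a, ha, Join.refl _ _⟩
    | tail _ h ih =>
      rename_i k l _
      obtain ⟨b, hb, hab⟩ := ih
      obtain ⟨x, hx, y, hy, hxy⟩ := hadj _ h.2.1 _ h.2.2 h.1
      refine ⟨y, hy, hab.trans ?_⟩
      have h1 := ((hB _ h.2.1).2 b hb x hx).mono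
        (Set.subset_biUnion_of_mem (u := B) h.2.1)
      exact h1.trans (Join.single hxy (Set.mem_biUnion h.2.1 hx) (Set.mem_biUnion h.2.2 hy))
  obtain ⟨b, hb, h⟩ := key j (hS.2 i hi j hj)
  exact ⟨a, ha, b, hb, h⟩

lemma Conn.union {S T : Set W} (hS : Conn G S) (hT : Conn G T) (h : (S ∩ T).Nonempty) :
    Conn G (S ∪ T) := by
  obtain ⟨c, hc1, hc2⟩ := h
  refine conn_of_base c (Or.inl hc1) ?_
  rintro a (ha | ha)
  · exact (hS.2 a ha c hc1).mono Set.subset_union_left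
  · exact (hT.2 a ha c hc2).mono Set.subset_union_right

end Pool.Agent.Lib.MP_69d199_co
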