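import Mathlib

/-!
# Selection of columns and rows
-/

set_option autoImplicit false

namespace Pool.Agent.Lib.MP_69d199_co

/-- rows above `y₀` avoiding a finite set -/
lemma exists_rows (Un : Finset ℤ) (h : ℕ) (hUn : Un.card ≤ h) (y₀ : ℤ) :
    ∃ ρ : ℕ → ℤ, StrictMono ρ ∧ ρ 0 = y₀ ∧ (∀ k, 0 < k → ρ k ∉ Un) ∧ ∀ k : ℕ, ρ k ≤ y₀ + k + h := by
  classical
  set P : ℕ → Prop := fun j => y₀ + 1 + (j : ℤ) ∉ Un with hP
  have hbadfin : {j : ℕ | ¬ P j}.Finite := by
    have : {j : ℕ | ¬ P j} ⊆ (fun j : ℕ => y₀ + 1 + (j : ℤ)) ⁻¹' (Un : Set ℤ) := by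
      intro j hj
      simp only [hP, Set.mem_ofPred_eq, not_not] at hj
      exact hj
    refine Set.Finite.subset (Set.Finite.preimage ?_ Un.finite_toSet) this
    intro a _ b _ hab
    simp only at hab
    omega
  have hinf : (Set.ofPred P).Infinite := by
    intro hfin
    have : (Set.univ : Set ℕ).Finite := by
      have h1 := hfin.union hbadfin
      refine h1.subset (fun j _ => ?_)
      by_cases hj : P j
      · exact Or.inl hj
      · exact Or.inr hj
    exact Set.infinite_univ this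
  have hcount : ∀ m, m ≤ Nat.count P m + h := by
    intro m
    rw [Nat.count_eq_card_filter_range]
    have h1 : ((Finset.range m).filter (fun j => ¬ P j)).card ≤ Un.card := by
      apply Finset.card_le_card_of_injOn (fun j : ℕ => y₀ + 1 + (j : ℤ))
      · intro j hj
        have := (Finset.mem_filter.1 hj).2
        simpa [hP] using this
      · intro a _ b _ hab
        simp only at hab
        omega
    have h2 : ((Finset.range m).filter (fun j => P j)).card +
        ((Finset.range m).filter (fun j => ¬ P j)).card = (Finset.range m).card :=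
      Finset.card_filter_add_card_filter_not (s := Finset.range m) P
    rw [Finset.card_range] at h2
    have h3 : ((Finset.range m).filter (fun j => P j)).card =
      (Finset.filter P (Finset.range m)).card := by congr
    simp only [hP] at h1 h2 h3 ⊢
    omega
  refine ⟨fun k => if k = 0 then y₀ else y₀ + 1 + (Nat.nth P (k - 1) : ℤ), ?_, by simp, ?_, ?_⟩
  · apply strictMono_nat_of_lt_succ
    intro k
    rcases Nat.eq_zero_or_pos k with rfl | hk
    · simp only [if_true, Nat.succ_ne_zero, if_false]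
      omega
    · have hk' : k ≠ 0 := by omega
      simp only [hk', if_false, Nat.succ_ne_zero]
      have := Nat.nth_strictMono hinf (show k - 1 < k + 1 - 1 by omega)
      omega
  · intro k hk
    have hk' : k ≠ 0 := by omega
    simp only [hk', if_false]
    exact Nat.nth_mem_of_infinite hinf (k - 1)
  · intro k
    by_cases hk : k = 0
    · simp [hk]
    · simp only [hk, if_false]
      have h1 := hcount (k + h)
      have h2 : k - 1 < Nat.count P (k + h) := by omega
      have h3 := Nat.nth_lt_of_lt_count h2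
      omega

/-- the slots -/
noncomputable def slot (D : Finset ℕ) (w : ℕ) : ℕ → ℕ
  | 0 => if 0 ∈ D then w - 1 else 0
  | p + 1 => if p + 1 ∈ D then ((slot D w p + 1) / w) * w + (w - 1) else slot D w p + 1

lemma slot_lt (D : Finset ℕ) (w : ℕ) (hw : 0 < w) (p : ℕ) : slot D w p < slot D w (p + 1) := by
  rw [slot]
  split_ifs
  · have := Nat.div_add_mod (slot D w p + 1) w
    have := Nat.mod_lt (slot D w p + 1) hw
    have : (slot D w p + 1) / w * w = w * ((slot D w p + 1) / w) := mul_comm _ _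
    omega
  · omega

lemma slot_strictMono (D : Finset ℕ) (w : ℕ) (hw : 0 < w) : StrictMono (slot D w) :=
  strictMono_nat_of_lt_succ (slot_lt D w hw)

lemma slot_mod (D : Finset ℕ) (w : ℕ) (hw : 0 < w) (p : ℕ) (hp : p ∈ D) :
    slot D w p % w = w - 1 := by
  cases p with
  | zero =>
    rw [slot, if_pos hp]
    exact Nat.mod_eq_of_lt (by omega)
  | succ p =>
    rw [slot, if_pos hp, Nat.mul_add_mod']
    exact Nat.mod_eq_of_lt (by omega)

lemma slot_le (D : Finset ℕ) (w : ℕ) (p : ℕ) :
    slot D w p ≤ p + (w - 1) * (D.filter (· ≤ p)).card := by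
  classical
  induction p with
  | zero =>
    rw [slot]
    split_ifs with h
    · have : 1 ≤ (D.filter (· ≤ 0)).card :=
        Finset.card_pos.2 ⟨0, by simp [h]⟩
      nlinarith
    · omega
  | succ p ih =>
    rw [slot]
    split_ifs with h
    · have h1 : (D.filter (· ≤ p + 1)).card = (D.filter (· ≤ p)).card + 1 := by
        have : D.filter (· ≤ p + 1) = insert (p + 1) (D.filter (· ≤ p)) := by
          ext x
          simp only [Finset.mem_filter, Finset.mem_insert]
          constructor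
          · rintro ⟨a, b⟩
            by_cases hx : x = p + 1
            · exact Or.inl hx
            · exact Or.inr ⟨a, by omega⟩
          · rintro (rfl | ⟨a, b⟩)
            · exact ⟨h, le_rfl⟩
            · exact ⟨a, by omega⟩
        rw [this, Finset.card_insert_of_notMem (by simp)]
      have h2 := Nat.div_mul_le_self (slot D w p + 1) w
      rw [h1, mul_add]
      omega
    · have h1 : (D.filter (· ≤ p)).card ≤ (D.filter (· ≤ p + 1)).card :=
        Finset.card_le_card (fun x hx => by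
          simp only [Finset.mem_filter] at hx ⊢
          exact ⟨hx.1, by omega⟩)
      have h2 := Nat.mul_le_mul_left (w - 1) h1
      omega

/-- selection of the columns -/
lemma select_cols (L d r w : ℕ) (hw : 0 < w) (hwL : L ≤ w * (d + 1)) (Un : Finset ℤ)
    (hUn : Un.card ≤ (4 * d + 2) * r + 1) (D : Finset ℕ) (hD : D.card ≤ d) :
    ∃ col : Fin L → ℤ, StrictMono col ∧
      (∀ p, col p ∉ Un ∧ 0 ≤ col p ∧ col p < (4 * d + 2 : ℤ) * (w + 2 * (r + 1))) ∧
      ∀ p : Fin L, p.val ∈ D → ∃ g : ℕ, g < 4 * d + 2 ∧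
        col p < (g + 1 : ℤ) * (w + 2 * (r + 1)) ∧
        ∀ q, p < q → (g + 1 : ℤ) * (w + 2 * (r + 1)) ≤ col q := by
  classical
  obtain ⟨c, hc⟩ : ∃ c : ℤ, c = (w : ℤ) + 2 * (r + 1) := ⟨_, rfl⟩
  have hcpos : 0 < c := by rw [hc]; positivity
  rw [← hc]
  -- clean columns of the gaps
  set C : ℕ → Finset ℤ := fun g => (Finset.Ioo ((g : ℤ) * c) ((g + 1 : ℤ) * c)).filter
    (fun x => x ∉ Un) with hC
  set good : Finset ℕ := (Finset.range (4 * d + 2)).filter (fun g => w ≤ (C g).card) with hgood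
  have hbadcard : ∀ g : ℕ, ¬ w ≤ (C g).card →
      2 * (r + 1) ≤ ((Finset.Ioo ((g : ℤ) * c) ((g + 1 : ℤ) * c)).filter (fun x => x ∈ Un)).card := by
    intro g hg
    have h1 := Finset.card_filter_add_card_filter_not
      (s := Finset.Ioo ((g : ℤ) * c) ((g + 1 : ℤ) * c)) (fun x => x ∈ Un)
    have h2 : (Finset.Ioo ((g : ℤ) * c) ((g + 1 : ℤ) * c)).card = w + 2 * (r + 1) - 1 := by
      rw [Int.card_Ioo]
      have : ((g : ℤ) + 1) * c - (g : ℤ) * c - 1 = c - 1 := by ring
      rw [this, hc]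
      omega
    have h3 : (C g).card = ((Finset.Ioo ((g : ℤ) * c) ((g + 1 : ℤ) * c)).filter
      (fun x => ¬ x ∈ Un)).card := rfl
    rw [h2] at h1
    omega
  set bad : Finset ℕ := (Finset.range (4 * d + 2)).filter (fun g => ¬ w ≤ (C g).card) with hbad
  have hdisj : ∀ g g' : ℕ, g < g' → ∀ x ∈ Finset.Ioo ((g : ℤ) * c) ((g + 1 : ℤ) * c),
      ∀ y ∈ Finset.Ioo ((g' : ℤ) * c) ((g' + 1 : ℤ) * c), x < y := by
    intro g g' hgg x hx y hy
    rw [Finset.mem_Ioo] at hx hy
    have h1 : ((g : ℤ) + 1) * c ≤ (g' : ℤ) * c := by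
      apply mul_le_mul_of_nonneg_right _ hcpos.le
      exact_mod_cast hgg
    linarith [hx.2, hy.1]
  have hbadsum : bad.card * (2 * (r + 1)) ≤ Un.card := by
    have h1 : (bad.biUnion (fun g => (Finset.Ioo ((g : ℤ) * c) ((g + 1 : ℤ) * c)).filter
        (fun x => x ∈ Un))).card ≤ Un.card := by
      apply Finset.card_le_card
      intro x hx
      simp only [Finset.mem_biUnion, Finset.mem_filter] at hx
      obtain ⟨g, -, -, hx⟩ := hx
      exact hx
    rw [Finset.card_biUnion] at h1
    · refine le_trans ?_ h1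
      rw [← smul_eq_mul, ← Finset.sum_const]
      apply Finset.sum_le_sum
      intro g hg
      exact hbadcard g (Finset.mem_filter.1 hg).2
    · intro g _ g' _ hne
      rw [Function.onFun, Finset.disjoint_left]
      intro x hx hx'
      have hx1 := (Finset.mem_filter.1 hx).1
      have hx2 := (Finset.mem_filter.1 hx').1
      rcases lt_or_gt_of_ne hne with h | h
      · exact lt_irrefl _ (hdisj g g' h x hx1 x hx2)
      · exact lt_irrefl _ (hdisj g' g h x hx2 x hx1)
  have hgoodcard : 2 * d + 1 ≤ good.card := by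
    have h1 := Finset.card_filter_add_card_filter_not (s := Finset.range (4 * d + 2))
      (fun g => w ≤ (C g).card)
    rw [Finset.card_range] at h1
    by_contra hcon
    have h2 : 2 * d + 2 ≤ bad.card := by
      simp only [hgood, hbad] at hcon ⊢
      omega
    have h3 : (2 * d + 2) * (2 * (r + 1)) ≤ bad.card * (2 * (r + 1)) :=
      Nat.mul_le_mul_right _ h2
    have h4 := h3.trans (hbadsum.trans hUn)
    nlinarith
  -- enumeration of good gaps
  set e : Fin (2 * d + 1) ↪o ℕ := good.orderEmbOfCardLe hgoodcard with he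
  have heg : ∀ γ, e γ ∈ good := fun γ => Finset.orderEmbOfCardLe_mem _ _ γ
  have hew : ∀ γ, w ≤ (C (e γ)).card := fun γ => (Finset.mem_filter.1 (heg γ)).2
  have her : ∀ γ, e γ < 4 * d + 2 := fun γ => Finset.mem_range.1 (Finset.mem_filter.1 (heg γ)).1
  set cc : Fin (2 * d + 1) → Fin w → ℤ := fun γ ι => (C (e γ)).orderEmbOfCardLe (hew γ) ι with hcc
  have hccmem : ∀ γ ι, cc γ ι ∈ C (e γ) := fun γ ι => Finset.orderEmbOfCardLe_mem _ _ ι
  have hcclt : ∀ γ ι ι', ι < ι' → cc γ ι < cc γ ι' := fun γ ι ι' h =>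
    ((C (e γ)).orderEmbOfCardLe (hew γ)).strictMono h
  have hccgap : ∀ γ ι, (e γ : ℤ) * c < cc γ ι ∧ cc γ ι < ((e γ : ℤ) + 1) * c := by
    intro γ ι
    have := (Finset.mem_filter.1 (hccmem γ ι)).1
    exact Finset.mem_Ioo.1 this
  -- slots
  have hslot : ∀ p : Fin L, slot D w p < (2 * d + 1) * w := by
    intro p
    have h1 := slot_le D w p
    have h2 : (D.filter (· ≤ p.val)).card ≤ d := (Finset.card_filter_le _ _).trans hD
    have h3 := Nat.mul_le_mul_left (w - 1) h2
    have h4 := p.2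
    have h5 : (2 * d + 1) * w = w * (d + 1) + d * w := by ring
    have h6 : (w - 1) * d ≤ d * w := by
      rw [mul_comm]; exact Nat.mul_le_mul_left _ (by omega)
    omega
  have hγ : ∀ p : Fin L, slot D w p / w < 2 * d + 1 := by
    intro p
    rw [Nat.div_lt_iff_lt_mul hw]
    exact hslot p
  have hι : ∀ p : Fin L, slot D w p % w < w := fun p => Nat.mod_lt _ hw
  refine ⟨fun p => cc ⟨_, hγ p⟩ ⟨_, hι p⟩, ?_, ?_, ?_⟩
  · intro p q hpq
    have h1 : slot D w p < slot D w q := slot_strictMono D w hw hpq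
    have h2 : slot D w p / w ≤ slot D w q / w := Nat.div_le_div_right h1.le
    simp only
    rcases h2.eq_or_lt with h3 | h3
    · have h4 : slot D w p % w < slot D w q % w := by
        have a1 := Nat.div_add_mod (slot D w p) w
        have a2 := Nat.div_add_mod (slot D w q) w
        rw [h3] at a1
        omega
      have h5 : (⟨_, hγ p⟩ : Fin (2 * d + 1)) = ⟨_, hγ q⟩ := by
        rw [Fin.mk.injEq]; exact h3
      rw [h5]
      exact hcclt _ _ _ h4
    · have h5 : e ⟨_, hγ p⟩ < e ⟨_, hγ q⟩ := e.strictMono (show (⟨_, hγ p⟩ : Fin (2 * d + 1)) <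
        ⟨_, hγ q⟩ from h3)
      have h6 : ((e ⟨_, hγ p⟩ : ℤ) + 1) * c ≤ (e ⟨_, hγ q⟩ : ℤ) * c := by
        apply mul_le_mul_of_nonneg_right _ hcpos.le
        exact_mod_cast h5
      have h7 := hccgap ⟨_, hγ p⟩ ⟨_, hι p⟩
      have h8 := hccgap ⟨_, hγ q⟩ ⟨_, hι q⟩
      linarith [h7.2, h8.1]
  · intro p
    have h7 := hccgap ⟨_, hγ p⟩ ⟨_, hι p⟩
    have h8 := (Finset.mem_filter.1 (hccmem ⟨_, hγ p⟩ ⟨_, hι p⟩)).2
    refine ⟨h8, ?_, ?_⟩
    · have : (0 : ℤ) ≤ (e ⟨_, hγ p⟩ : ℤ) * c := by positivity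
      linarith [h7.1]
    · have h9 := her ⟨_, hγ p⟩
      have h10 : ((e ⟨_, hγ p⟩ : ℤ) + 1) * c ≤ (4 * d + 2 : ℤ) * c := by
        apply mul_le_mul_of_nonneg_right _ hcpos.le
        exact_mod_cast h9
      linarith [h7.2]
  · intro p hp
    refine ⟨e ⟨_, hγ p⟩, her _, (hccgap _ _).2, ?_⟩
    intro q hpq
    have h1 : slot D w p < slot D w q := slot_strictMono D w hw hpq
    have h2 := slot_mod D w hw p hp
    have h3 : slot D w p / w < slot D w q / w := by
      have a1 := Nat.div_add_mod (slot D w p) w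
      have a2 := Nat.div_add_mod (slot D w q) w
      have a3 := Nat.mod_lt (slot D w q) hw
      by_contra hcon
      have h4 : slot D w q / w ≤ slot D w p / w := not_lt.1 hcon
      have h5 := Nat.mul_le_mul_left w h4
      omega
    have h5 : e ⟨_, hγ p⟩ < e ⟨_, hγ q⟩ := e.strictMono (show (⟨_, hγ p⟩ : Fin (2 * d + 1)) <
      ⟨_, hγ q⟩ from h3)
    have h6 : ((e ⟨_, hγ p⟩ : ℤ) + 1) * c ≤ (e ⟨_, hγ q⟩ : ℤ) * c := by
      apply mul_le_mul_of_nonneg_right _ hcpos.le
      exact_mod_cast h5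
    have h8 := hccgap ⟨_, hγ q⟩ ⟨_, hι q⟩
    linarith [h8.1]

end Pool.Agent.Lib.MP_69d199_co
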