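import Pool.Agent.Lib.MP_69d199_co.Frame
import Pool.Agent.Lib.MP_69d199_co.Select

/-!
# The core construction
-/

set_option autoImplicit false

namespace Pool.Agent.Lib.MP_69d199_co

/-- in the range of the grid -/
def InR (n : ℕ) (z : ℤ × ℤ) : Prop := 0 ≤ z.1 ∧ z.1 < n ∧ 0 ≤ z.2 ∧ z.2 < n

/-- branch sets indexed by integer points -/
def BZ {W : Type} {n : ℕ} (B : Fin n × Fin n → Set W) (z : ℤ × ℤ) : Set W :=
  {w | ∃ i j : Fin n, ((i : ℕ) : ℤ) = z.1 ∧ ((j : ℕ) : ℤ) = z.2 ∧ w ∈ B (i, j)}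

lemma bz_eq {W : Type} {n : ℕ} (B : Fin n × Fin n → Set W) {z : ℤ × ℤ} {i j : Fin n}
    (h1 : ((i : ℕ) : ℤ) = z.1) (h2 : ((j : ℕ) : ℤ) = z.2) : BZ B z = B (i, j) := by
  ext w
  constructor
  · rintro ⟨i', j', h1', h2', hw⟩
    have e1 : i' = i := by apply Fin.ext; omega
    have e2 : j' = j := by apply Fin.ext; omega
    rwa [e1, e2] at hw
  · intro hw
    exact ⟨i, j, h1, h2, hw⟩

lemma InR.idx {n : ℕ} {z : ℤ × ℤ} (h : InR n z) :
    ∃ i j : Fin n, ((i : ℕ) : ℤ) = z.1 ∧ ((j : ℕ) : ℤ) = z.2 := by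
  obtain ⟨h1, h2, h3, h4⟩ := h
  refine ⟨⟨z.1.toNat, by omega⟩, ⟨z.2.toNat, by omega⟩, ?_, ?_⟩
  · simp only; omega
  · simp only; omega

lemma inR_of_mem {W : Type} {n : ℕ} {B : Fin n × Fin n → Set W} {z : ℤ × ℤ} {w : W}
    (h : w ∈ BZ B z) : InR n z := by
  obtain ⟨i, j, h1, h2, -⟩ := h
  have := i.2
  have := j.2
  exact ⟨by omega, by omega, by omega, by omega⟩

variable {V W : Type} {H : SimpleGraph V} {L d r n : ℕ}

theorem core (S : ArcSystem V H L) (D : Finset ℕ) (hD : D.card ≤ d) (G : SimpleGraph W) (α : W)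
    (hα : ∀ v, ∃ w : G.Walk α v, w.length ≤ r) (B : Fin n × Fin n → Set W)
    (hB : ∀ z, Conn G (B z)) (hBd : ∀ z z', z ≠ z' → Disjoint (B z) (B z'))
    (hBa : ∀ z z', (grid n).Adj z z' → ∃ x ∈ B z, ∃ y ∈ B z', G.Adj x y)
    (hn : 4 * L + (4 * d + 2) * (2 * r + 3) < n) :
    ∃ (Z : Set W) (X : V → Set W), Conn G Z ∧ (∀ v, Conn G (X v)) ∧
      (∀ u v, u ≠ v → Disjoint (X u) (X v)) ∧ (∀ v, Disjoint (X v) Z) ∧
      (∀ u v, H.Adj u v → ∃ x ∈ X u, ∃ y ∈ X v, G.Adj x y) ∧
      ∀ p : Fin L, p.val ∈ D → ∃ x ∈ X (S.lab p), ∃ y ∈ Z, G.Adj x y := by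
  classical
  -- properties of BZ
  have zconn : ∀ z, InR n z → Conn G (BZ B z) := by
    intro z hz
    obtain ⟨i, j, h1, h2⟩ := hz.idx
    rw [bz_eq B h1 h2]
    exact hB _
  have zdisj : ∀ z z' w, w ∈ BZ B z → w ∈ BZ B z' → z = z' := by
    rintro z z' w ⟨i, j, h1, h2, hw⟩ ⟨i', j', h1', h2', hw'⟩
    by_contra hne
    have : (i, j) ≠ (i', j') := by
      intro h
      rw [Prod.mk.injEq] at h
      apply hne
      ext
      · rw [← h1, ← h1', h.1]
      · rw [← h2, ← h2', h.2]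
    exact Set.disjoint_left.1 (hBd _ _ this) hw hw'
  have zadj : ∀ z z', InR n z → InR n z' → zgrid.Adj z z' →
      ∃ x ∈ BZ B z, ∃ y ∈ BZ B z', G.Adj x y := by
    intro z z' hz hz' hadj
    obtain ⟨i, j, h1, h2⟩ := hz.idx
    obtain ⟨i', j', h1', h2'⟩ := hz'.idx
    rw [bz_eq B h1 h2, bz_eq B h1' h2']
    apply hBa
    have h3 : |z.1 - z'.1| + |z.2 - z'.2| = 1 := hadj
    show |((i : ℕ) : ℤ) - ((i' : ℕ) : ℤ)| + |((j : ℕ) : ℤ) - ((j' : ℕ) : ℤ)| = 1
    rw [h1, h2, h1', h2']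
    exact h3
  -- parameters
  obtain ⟨w, hw⟩ : ∃ w, w = L / (d + 1) + 1 := ⟨_, rfl⟩
  have hwpos : 0 < w := by rw [hw]; exact Nat.succ_pos _
  have hwL : L ≤ w * (d + 1) := by
    have h1 := Nat.div_add_mod L (d + 1)
    have h2 : L % (d + 1) < d + 1 := Nat.mod_lt L (Nat.succ_pos d)
    rw [hw]
    nlinarith
  have hTw : (4 * d + 2) * w ≤ 4 * L + (4 * d + 2) := by
    have h1 := Nat.div_mul_le_self L (d + 1)
    rw [hw]
    nlinarith
  obtain ⟨c, hc⟩ : ∃ c : ℤ, c = (w : ℤ) + 2 * (r + 1) := ⟨_, rfl⟩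
  have hcpos : 0 < c := by rw [hc]; positivity
  have hTc : (4 * d + 2 : ℤ) * c < n := by
    have h1 : (4 * d + 2) * (w + 2 * (r + 1)) < n := by nlinarith
    rw [hc]
    exact_mod_cast h1
  obtain ⟨y₀, hy₀⟩ : ∃ y₀ : ℤ, y₀ = (L : ℤ) + (4 * d + 2) * r + 1 := ⟨_, rfl⟩
  have hn' : (4 : ℤ) * L + (4 * d + 2) * (2 * r + 3) < n := by exact_mod_cast hn
  have hy₀n : y₀ < n := by rw [hy₀]; nlinarith
  have hy₀pos : 0 ≤ y₀ := by rw [hy₀]; positivity
  -- targets
  have htar : ∀ g : ℕ, g < 4 * d + 2 → InR n ((g + 1 : ℤ) * c, y₀) := by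
    intro g hg
    refine ⟨by positivity, ?_, hy₀pos, hy₀n⟩
    have : ((g : ℤ) + 1) * c ≤ (4 * d + 2 : ℤ) * c := by
      apply mul_le_mul_of_nonneg_right _ hcpos.le
      exact_mod_cast hg
    simp only
    linarith
  have hex : ∀ g : Fin (4 * d + 2), ∃ t : W, t ∈ BZ B (((g : ℕ) + 1 : ℤ) * c, y₀) :=
    fun g => (zconn _ (htar g g.2)).1
  choose t ht using hex
  choose pw hpw using fun g => hα (t g)
  -- the tree
  obtain ⟨ZF, hZF⟩ : ∃ ZF : Finset W, ZF = insert α (Finset.univ.biUnion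
    (fun g : Fin (4 * d + 2) => (pw g).support.tail.toFinset)) := ⟨_, rfl⟩
  have hZFcard : ZF.card ≤ (4 * d + 2) * r + 1 := by
    rw [hZF]
    refine (Finset.card_insert_le _ _).trans ?_
    have h1 : (Finset.univ.biUnion
      (fun g : Fin (4 * d + 2) => (pw g).support.tail.toFinset)).card ≤
        (Finset.univ : Finset (Fin (4 * d + 2))).card * r := by
      apply Finset.card_biUnion_le_card_mul
      intro g _
      refine (List.toFinset_card_le _).trans ?_
      rw [List.length_tail, SimpleGraph.Walk.length_support]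
      have := hpw g
      omega
    rw [Finset.card_univ, Fintype.card_fin] at h1
    omega
  have hsup : ∀ g x, x ∈ (pw g).support → x ∈ ZF := by
    intro g x hx
    rw [hZF, Finset.mem_insert]
    rw [SimpleGraph.Walk.mem_support_iff] at hx
    rcases hx with rfl | hx
    · exact Or.inl rfl
    · right
      rw [Finset.mem_biUnion]
      exact ⟨g, Finset.mem_univ _, List.mem_toFinset.2 hx⟩
  have hjoinw : ∀ (a b : W) (q : G.Walk a b) (T : Set W), (∀ x ∈ q.support, x ∈ T) →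
      ∀ x ∈ q.support, Join G T a x := by
    intro a b q T
    induction q with
    | nil =>
      intro _ x hx
      simp only [SimpleGraph.Walk.support_nil, List.mem_singleton] at hx
      rw [hx]; exact Join.refl _ _
    | cons h q' ih =>
      intro hT x hx
      rw [SimpleGraph.Walk.support_cons, List.mem_cons] at hx
      rcases hx with rfl | hx
      · exact Join.refl _ _
      · have h1 := ih (fun y hy => hT y (by
          rw [SimpleGraph.Walk.support_cons]; exact List.mem_cons_of_mem _ hy)) x hx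
        refine (Join.single h (hT _ (by simp)) (hT _ ?_)).trans h1
        rw [SimpleGraph.Walk.support_cons]
        exact List.mem_cons_of_mem _ (SimpleGraph.Walk.start_mem_support _)
  have hZFjoin : ∀ x ∈ ZF, Join G (ZF : Set W) α x := by
    intro x hx
    rw [hZF, Finset.mem_insert, Finset.mem_biUnion] at hx
    rcases hx with rfl | ⟨g, -, hx⟩
    · exact Join.refl _ _
    · exact hjoinw _ _ (pw g) (ZF : Set W) (fun y hy => hsup g y hy) x
        (List.mem_of_mem_tail (List.mem_toFinset.1 hx))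
  have hαZF : α ∈ ZF := by rw [hZF]; exact Finset.mem_insert_self _ _
  -- hits
  set Hit : ℤ × ℤ → Prop := fun z => ∃ x ∈ BZ B z, x ∈ ZF with hHit
  have hHitR : ∀ z, Hit z → InR n z := by
    rintro z ⟨x, hx, -⟩
    exact inR_of_mem hx
  obtain ⟨HS, hHS, hHScard⟩ : ∃ HS : Finset (ℤ × ℤ), (∀ z, Hit z → z ∈ HS) ∧
      HS.card ≤ (4 * d + 2) * r + 1 := by
    refine ⟨ZF.image (fun x => if h : ∃ z, x ∈ BZ B z then h.choose else (0, 0)), ?_, ?_⟩
    · rintro z ⟨x, hx, hxZ⟩
      rw [Finset.mem_image]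
      refine ⟨x, hxZ, ?_⟩
      have h : ∃ z, x ∈ BZ B z := ⟨z, hx⟩
      rw [dif_pos h]
      exact zdisj _ _ x h.choose_spec hx
    · exact Finset.card_image_le.trans hZFcard
  have hHittar : ∀ g : ℕ, g < 4 * d + 2 → Hit ((g + 1 : ℤ) * c, y₀) := by
    intro g hg
    exact ⟨t ⟨g, hg⟩, ht ⟨g, hg⟩, hsup ⟨g, hg⟩ _ (SimpleGraph.Walk.end_mem_support _)⟩
  -- the columns
  obtain ⟨col, hcolmono, hcolmem, hcolmark⟩ := select_cols L d r w hwpos hwL (HS.image Prod.fst)
    (Finset.card_image_le.trans hHScard) D hD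
  rw [← hc] at hcolmem hcolmark
  have hcolclean : ∀ p y, ¬ Hit (col p, y) := by
    intro p y h
    exact (hcolmem p).1 (Finset.mem_image.2 ⟨_, hHS _ h, rfl⟩)
  have hcolR : ∀ p, 0 ≤ col p ∧ col p < n := fun p =>
    ⟨(hcolmem p).2.1, (hcolmem p).2.2.trans hTc⟩
  -- the rows
  obtain ⟨ρ, hρ, hρ0, hρclean, hρle⟩ := exists_rows (HS.image Prod.snd) ((4 * d + 2) * r + 1)
    (Finset.card_image_le.trans hHScard) y₀
  obtain ⟨σ', hσ, hσ0, hσclean, hσle⟩ := exists_rows ((HS.image Prod.snd).image (fun y => -y))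
    ((4 * d + 2) * r + 1)
    (Finset.card_image_le.trans (Finset.card_image_le.trans hHScard)) (-y₀)
  have hρclean' : ∀ k, 0 < k → ∀ x, ¬ Hit (x, ρ k) := by
    intro k hk x h
    exact hρclean k hk (Finset.mem_image.2 ⟨_, hHS _ h, rfl⟩)
  have hσclean' : ∀ k, 0 < k → ∀ x, ¬ Hit (x, - σ' k) := by
    intro k hk x h
    apply hσclean k hk
    rw [Finset.mem_image]
    exact ⟨- σ' k, Finset.mem_image.2 ⟨_, hHS _ h, rfl⟩, by ring⟩
  -- the stubs
  have hstub : ∀ p : Fin L, ∃ e : ℤ, col p < e ∧ (∀ q, p < q → e ≤ col q) ∧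
      (∀ x, col p ≤ x → x < e → ¬ Hit (x, y₀)) ∧ e ≤ n ∧ (p.val ∈ D → Hit (e, y₀)) := by
    intro p
    by_cases hp : p.val ∈ D
    · obtain ⟨g, hg, h1, h2⟩ := hcolmark p hp
      have hexk : ∃ k : ℕ, Hit (col p + 1 + k, y₀) := by
        refine ⟨(((g : ℤ) + 1) * c - col p - 1).toNat, ?_⟩
        have : col p + 1 + ((((g : ℤ) + 1) * c - col p - 1).toNat : ℤ) = ((g : ℤ) + 1) * c := by
          omega
        rw [this]
        exact hHittar g hg
      set k := Nat.find hexk with hk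
      have hkspec := Nat.find_spec hexk
      have hkmin : ∀ m < k, ¬ Hit (col p + 1 + m, y₀) := fun m hm => Nat.find_min hexk hm
      have hkle : col p + 1 + (k : ℤ) ≤ ((g : ℤ) + 1) * c := by
        by_contra hcon
        have h3 : (((g : ℤ) + 1) * c - col p - 1).toNat < k := by omega
        apply hkmin _ h3
        have : col p + 1 + ((((g : ℤ) + 1) * c - col p - 1).toNat : ℤ) = ((g : ℤ) + 1) * c := by
          omega
        rw [this]
        exact hHittar g hg
      refine ⟨col p + 1 + k, by omega, fun q hq => hkle.trans (h2 q hq), ?_, ?_, fun _ => hkspec⟩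
      · intro x hx1 hx2
        rcases hx1.eq_or_lt with rfl | hx1
        · exact hcolclean p y₀
        · have h3 := hkmin (x - col p - 1).toNat (by omega)
          have : col p + 1 + ((x - col p - 1).toNat : ℤ) = x := by omega
          rwa [this] at h3
      · have := (htar g hg).2.1
        simp only at this
        omega
    · refine ⟨col p + 1, by omega, fun q hq => hcolmono hq, ?_, ?_, fun h => absurd h hp⟩
      · intro x hx1 hx2
        have : x = col p := by omega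
        rw [this]; exact hcolclean p y₀
      · have := (hcolR p).2
        omega
  choose e he1 he2 he3 he4 he5 using hstub
  -- the frame
  set F : Frame L :=
    { col := col, ρ := ρ, σ := fun k => - σ' k, h := e, hcol := hcolmono, hρ := hρ
      hσ := fun a b hab => neg_lt_neg (hσ hab)
      h0 := by rw [hσ0, hρ0]; ring
      hh := he1, hh' := he2 } with hF
  -- free points
  set Free : ℤ × ℤ → Prop := fun z => InR n z ∧ ¬ Hit z with hFree
  have hdr : (0 : ℤ) ≤ (4 * d + 2) * r := by positivity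
  have hnL : 2 * (L : ℤ) + 2 * ((4 * d + 2) * r) + 3 ≤ n := by nlinarith
  have hfree : ∀ v, ∀ z ∈ Cls S F v, Free z := by
    intro v z hz
    refine cls_free S F Free ?_ ?_ ?_ ?_ ?_ v hz
    · intro p k hk y hy
      refine ⟨⟨(hcolR p).1, (hcolR p).2, ?_, ?_⟩, hcolclean p y⟩
      · have h1 : F.ρ 0 ≤ F.ρ k := hρ.monotone (Nat.zero_le _)
        rw [Set.uIcc_of_le h1] at hy
        have h2 : F.ρ 0 = y₀ := hρ0
        simp only
        linarith [hy.1]
      · have h1 : F.ρ 0 ≤ F.ρ k := hρ.monotone (Nat.zero_le _)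
        rw [Set.uIcc_of_le h1] at hy
        have h2 : F.ρ k ≤ y₀ + k + ((4 * d + 2) * r + 1 : ℕ) := hρle k
        push_cast at h2
        have h3 := hy.2
        simp only
        have h4 : (k : ℤ) < L := by exact_mod_cast hk
        linarith
    · intro p k hk y hy
      have h1 : F.σ k ≤ F.σ 0 := neg_le_neg (hσ.monotone (Nat.zero_le k))
      rw [Set.uIcc_of_ge h1] at hy
      have h2 : σ' k ≤ -y₀ + k + ((4 * d + 2) * r + 1 : ℕ) := hσle k
      push_cast at h2
      have h3 : F.σ k = - σ' k := rfl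
      have h4 : F.σ 0 = y₀ := by show - σ' 0 = y₀; rw [hσ0]; ring
      have h5 : (k : ℤ) < L := by exact_mod_cast hk
      refine ⟨⟨(hcolR p).1, (hcolR p).2, ?_, ?_⟩, hcolclean p y⟩
      · simp only
        linarith [hy.1]
      · simp only
        linarith [hy.2]
    · intro k hk hkL p q x hx1 hx2
      have h2 : F.ρ k ≤ y₀ + k + ((4 * d + 2) * r + 1 : ℕ) := hρle k
      push_cast at h2
      have h1 : F.ρ 0 ≤ F.ρ k := hρ.monotone (Nat.zero_le _)
      have h3 : F.ρ 0 = y₀ := hρ0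
      have h4 : (k : ℤ) < L := by exact_mod_cast hkL
      refine ⟨⟨?_, ?_, ?_, ?_⟩, hρclean' k hk x⟩
      · exact (hcolR p).1.trans hx1
      · exact hx2.trans (hcolR q).2
      · simp only; linarith
      · simp only; linarith
    · intro k hk hkL p q x hx1 hx2
      have h2 : σ' k ≤ -y₀ + k + ((4 * d + 2) * r + 1 : ℕ) := hσle k
      push_cast at h2
      have h1 : F.σ k ≤ F.σ 0 := neg_le_neg (hσ.monotone (Nat.zero_le k))
      have h3 : F.σ k = - σ' k := rfl
      have h5 : F.σ 0 = y₀ := by show - σ' 0 = y₀; rw [hσ0]; ring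
      have h4 : (k : ℤ) < L := by exact_mod_cast hkL
      refine ⟨⟨?_, ?_, ?_, ?_⟩, hσclean' k hk x⟩
      · exact (hcolR p).1.trans hx1
      · exact hx2.trans (hcolR q).2
      · simp only; linarith
      · simp only; linarith
    · intro p x hx1 hx2
      have h3 : F.ρ 0 = y₀ := hρ0
      rw [h3]
      refine ⟨⟨?_, ?_, hy₀pos, hy₀n⟩, he3 p x hx1 hx2⟩
      · exact (hcolR p).1.trans hx1
      · exact lt_of_lt_of_le hx2 (he4 p)
  -- the sets
  refine ⟨(ZF : Set W) ∪ ⋃ z ∈ {z | Hit z}, BZ B z, fun v => ⋃ z ∈ Cls S F v, BZ B z,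
    ?_, ?_, ?_, ?_, ?_, ?_⟩
  · refine conn_of_base α (Or.inl hαZF) ?_
    rintro a (ha | ha)
    · exact ((hZFjoin a ha).symm).mono Set.subset_union_left
    · simp only [Set.mem_iUnion] at ha
      obtain ⟨z, hz, ha⟩ := ha
      obtain ⟨x, hx, hxZ⟩ := hz
      have h1 := (zconn z (inR_of_mem hx)).2 a ha x hx
      have hsub : BZ B z ⊆ (ZF : Set W) ∪ ⋃ z ∈ {z | Hit z}, BZ B z := by
        intro y hy
        exact Or.inr (Set.mem_biUnion (show z ∈ {z | Hit z} from ⟨x, hx, hxZ⟩) hy)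
      exact (h1.mono hsub).trans (((hZFjoin x hxZ).symm).mono Set.subset_union_left)
  · intro v
    refine Conn.transfer (cls_conn S F v) (fun z hz => zconn z (hfree v z hz).1) ?_
    intro z hz z' hz' hadj
    exact zadj z z' (hfree v z hz).1 (hfree v z' hz').1 hadj
  · intro u v huv
    rw [Set.disjoint_left]
    intro x hx hx'
    simp only [Set.mem_iUnion] at hx hx'
    obtain ⟨z, hz, hx⟩ := hx
    obtain ⟨z', hz', hx'⟩ := hx'
    have := zdisj z z' x hx hx'
    subst this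
    exact Set.disjoint_left.1 (cls_disjoint S F huv) hz hz'
  · intro v
    rw [Set.disjoint_left]
    intro x hx hx'
    simp only [Set.mem_iUnion] at hx
    obtain ⟨z, hz, hx⟩ := hx
    have hnot := (hfree v z hz).2
    rcases hx' with hx' | hx'
    · exact hnot ⟨x, hx, hx'⟩
    · simp only [Set.mem_iUnion] at hx'
      obtain ⟨z', hz', hx'⟩ := hx'
      have := zdisj z z' x hx hx'
      subst this
      exact hnot hz'
  · intro u v huv
    obtain ⟨z, hz, z', hz', hadj⟩ := cls_adj S F huv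
    obtain ⟨x, hx, y, hy, hxy⟩ := zadj z z' (hfree u z hz).1 (hfree v z' hz').1 hadj
    exact ⟨x, Set.mem_biUnion hz hx, y, Set.mem_biUnion hz' hy, hxy⟩
  · intro p hp
    have hhit := he5 p hp
    have hz : (e p - 1, y₀) ∈ Cls S F (S.lab p) := by
      refine Set.mem_biUnion (show p ∈ {q | S.lab q = S.lab p} from rfl) (Or.inr ⟨?_, ?_, ?_⟩)
      · exact hρ0.symm
      · show col p ≤ e p - 1
        have := he1 p
        omega
      · show e p - 1 < e p
        omega
    have hadj : zgrid.Adj (e p - 1, y₀) (e p, y₀) := by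
      have := zgrid_adj_h (e p - 1) y₀
      simpa using this
    obtain ⟨x, hx, y, hy, hxy⟩ := zadj _ _ (hfree _ _ hz).1 (hHitR _ hhit) hadj
    exact ⟨x, Set.mem_biUnion hz hx, y,
      Or.inr (Set.mem_biUnion (show (e p, y₀) ∈ {z | Hit z} from hhit) hy), hxy⟩

end Pool.Agent.Lib.MP_69d199_co
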