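import Mathlib

/-!
# Grid minors in apex-minor-free graphs of bounded radius: the definitions
-/

set_option autoImplicit false

namespace Pool.Agent.Lib.MP_69d199_co

/-- `IsMinor H G`: the graph `H` is a minor of `G`, that is, there are pairwise disjoint connected
(in particular nonempty) sets `B v` of vertices of `G`, one for every vertex `v` of `H`, such that
for every edge `uv` of `H` some edge of `G` joins `B u` and `B v`. -/
def IsMinor {V W : Type} (H : SimpleGraph V) (G : SimpleGraph W) : Prop :=
  ∃ B : V → Set W, (∀ v, (G.induce (B v)).Connected) ∧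
    (∀ u v, u ≠ v → Disjoint (B u) (B v)) ∧
    ∀ u v, H.Adj u v → ∃ x ∈ B u, ∃ y ∈ B v, G.Adj x y

/-- The `n × n` grid: `(x₁, y₁)` and `(x₂, y₂)` are adjacent iff `|x₁ - x₂| + |y₁ - y₂| = 1`. -/
def grid (n : ℕ) : SimpleGraph (Fin n × Fin n) where
  Adj p q := |((p.1 : ℕ) : ℤ) - ((q.1 : ℕ) : ℤ)| + |((p.2 : ℕ) : ℤ) - ((q.2 : ℕ) : ℤ)| = 1
  symm := ⟨fun p q h => by
    rw [abs_sub_comm ((q.1 : ℕ) : ℤ), abs_sub_comm ((q.2 : ℕ) : ℤ)]; exact h⟩
  loopless := ⟨fun p h => by simp at h⟩

/-- `IsPlanar H`: the graph `H` has a straight-line drawing in the plane without crossings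
(for finite graphs this is planarity, by the theorem of Wagner and Fáry). The drawing `p` is
injective, the segment of an edge contains no vertex other than its two ends, and a common point
of the segments of two different edges is a common end of the two edges. -/
def IsPlanar {V : Type} (H : SimpleGraph V) : Prop :=
  ∃ p : V → ℝ × ℝ, Function.Injective p ∧
    (∀ u v w, H.Adj u v → p w ∈ segment ℝ (p u) (p v) → w = u ∨ w = v) ∧
    (∀ u v x y, H.Adj u v → H.Adj x y → s(u, v) ≠ s(x, y) → ∀ q, q ∈ segment ℝ (p u) (p v) →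
      q ∈ segment ℝ (p x) (p y) → (q = p u ∨ q = p v) ∧ (q = p x ∨ q = p y))

/-- `A` is an apex graph with apex `z`: the graph `A - z` is planar. -/
def IsApexAt {V : Type} (A : SimpleGraph V) (z : V) : Prop :=
  IsPlanar (A.induce {v : V | v ≠ z})

/-- `A` is an apex graph: `A - z` is planar for some vertex `z`. -/
def IsApex {V : Type} (A : SimpleGraph V) : Prop := ∃ z : V, IsApexAt A z

/-- `G` is connected and has radius at most `r`: for some vertex `α`, every vertex is joined to `α`
by a walk of length at most `r`. -/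
def RadiusAtMost {W : Type} (G : SimpleGraph W) (r : ℕ) : Prop :=
  ∃ α : W, ∀ v : W, ∃ w : G.Walk α v, w.length ≤ r

/-- The set of the sizes `n` such that there exist an apex graph `A` with `t` vertices and an
`A`-minor-free finite graph `G` of radius at most `r` having the `n × n` grid as a minor. Its
largest element is `N(t, r)`. -/
def gridSizes (t r : ℕ) : Set ℕ :=
  {n : ℕ | ∃ (V W : Type) (_ : Fintype V) (_ : Fintype W) (A : SimpleGraph V) (G : SimpleGraph W),
    Fintype.card V = t ∧ IsApex A ∧ RadiusAtMost G r ∧ ¬ IsMinor A G ∧ IsMinor (grid n) G}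

end Pool.Agent.Lib.MP_69d199_co
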