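import Pool.Agent.Lib.MP_69d199_co.Geom

/-!
# The sweep: a planar graph is obtained from a noncrossing arc system
-/

set_option autoImplicit false

namespace Pool.Agent.Lib.MP_69d199_co

/-- Invariant of the sweep after the vertices `0, …, m-1`. -/
structure Inv (X Y : ℕ → ℝ) (E : ℕ → ℕ → Prop) (m : ℕ) (P : Finset ℝ)
    (lab : ℝ → ℕ) (U : ℝ → ℝ → Prop) (pos : ℕ → ℕ → ℝ) : Prop where
  card : P.card ≤ 2 * m
  posmem : ∀ i j, E i j → i < m → m ≤ j → pos i j ∈ P ∧ lab (pos i j) = i
  lablt : ∀ x ∈ P, lab x < m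
  Umem : ∀ a b, U a b → a ∈ P ∧ b ∈ P ∧ a < b
  nc : ∀ a b c d, U a b → U c d → a < c → c < b → b < d → False
  abab : ∀ a b c d, a ∈ P → b ∈ P → c ∈ P → d ∈ P → a < c → c < b → b < d →
    lab a = lab b → lab c = lab d → lab a = lab c
  edge : ∀ i j, E i j → j < m → ∃ a b, U a b ∧ ((lab a = i ∧ lab b = j) ∨ (lab a = j ∧ lab b = i))
  vis : ∀ i j, E i j → i < m → m ≤ j → ∀ a b, U a b → a < pos i j → pos i j < b → False
  mono : ∀ i j k l, E i j → i < m → m ≤ j → E k l → k < m → m ≤ l → Bel X Y i j k l →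
    pos i j ≤ pos k l
  surj : ∀ i, i < m → ∃ x ∈ P, lab x = i

variable {s : ℕ} {X Y : ℕ → ℝ} {E : ℕ → ℕ → Prop}

/-- insertion of the vertex `m` at a far left position -/
lemma Inv.step_left (D : Drawing s X Y E) {m : ℕ} {P : Finset ℝ} {lab : ℝ → ℕ}
    {U : ℝ → ℝ → Prop} {pos : ℕ → ℕ → ℝ} (I : Inv X Y E m P lab U pos)
    (hin : ∀ i, ¬ E i m) (habove : ∀ k l, E k l → k < m → m < l → Above X Y m k l) :
    ∃ P' lab' U' pos', Inv X Y E (m + 1) P' lab' U' pos' := by
  classical
  obtain ⟨q, hq⟩ : ∃ q : ℝ, ∀ x ∈ P, q < x := by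
    rcases P.eq_empty_or_nonempty with rfl | hne
    · exact ⟨0, by simp⟩
    · refine ⟨P.min' hne - 1, fun x hx => ?_⟩
      have := P.min'_le x hx
      linarith
  have hqP : q ∉ P := fun h => lt_irrefl _ (hq q h)
  have hne : ∀ x ∈ P, x ≠ q := fun x hx h => hqP (h ▸ hx)
  refine ⟨insert q P, fun x => if x = q then m else lab x, U,
    fun i j => if i = m then q else pos i j, ?_⟩
  have hact : ∀ i j, E i j → i < m + 1 → m + 1 ≤ j → i ≠ m → i < m ∧ m ≤ j ∧ m < j := by
    intro i j _ h1 h2 h3; omega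
  constructor
  · rw [Finset.card_insert_of_notMem hqP]
    have := I.card; omega
  · intro i j e h1 h2
    by_cases h : i = m
    · simp [h]
    · obtain ⟨a1, a2, -⟩ := hact i j e h1 h2 h
      obtain ⟨b1, b2⟩ := I.posmem i j e a1 a2
      simp only [h, if_false]
      refine ⟨Finset.mem_insert_of_mem b1, ?_⟩
      rw [if_neg (hne _ b1), b2]
  · intro x hx
    rcases Finset.mem_insert.1 hx with rfl | hx
    · simp
    · rw [if_neg (hne x hx)]
      have := I.lablt x hx; omega
  · intro a b h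
    obtain ⟨a1, a2, a3⟩ := I.Umem a b h
    exact ⟨Finset.mem_insert_of_mem a1, Finset.mem_insert_of_mem a2, a3⟩
  · exact I.nc
  · intro a b c d ha hb hc hd h1 h2 h3 h4 h5
    have hbP : b ∈ P := by
      rcases Finset.mem_insert.1 hb with rfl | h
      · rcases Finset.mem_insert.1 hc with rfl | h'
        · exact absurd h2 (lt_irrefl _)
        · exact absurd (hq c h') (not_lt.2 h2.le)
      · exact h
    have hcP : c ∈ P := by
      rcases Finset.mem_insert.1 hc with rfl | h
      · rcases Finset.mem_insert.1 ha with rfl | h'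
        · exact absurd h1 (lt_irrefl _)
        · exact absurd (hq a h') (not_lt.2 h1.le)
      · exact h
    have hdP : d ∈ P := by
      rcases Finset.mem_insert.1 hd with rfl | h
      · exact absurd (hq b hbP) (not_lt.2 h3.le)
      · exact h
    rcases Finset.mem_insert.1 ha with rfl | haP
    · simp only [if_true, if_neg (hne b hbP)] at h4
      have := I.lablt b hbP; omega
    · simp only [if_neg (hne a haP), if_neg (hne b hbP)] at h4
      simp only [if_neg (hne c hcP), if_neg (hne d hdP)] at h5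
      simp only [if_neg (hne a haP), if_neg (hne c hcP)]
      exact I.abab a b c d haP hbP hcP hdP h1 h2 h3 h4 h5
  · intro i j e hj
    have hjm : j ≠ m := by
      rintro rfl; exact hin i e
    obtain ⟨a, b, hab, h⟩ := I.edge i j e (by omega)
    obtain ⟨a1, a2, a3⟩ := I.Umem a b hab
    refine ⟨a, b, hab, ?_⟩
    simp only [if_neg (hne a a1), if_neg (hne b a2)]
    exact h
  · intro i j e h1 h2 a b hab h3 h4
    by_cases h : i = m
    · simp only [h, if_true] at h3 h4
      have := hq a (I.Umem a b hab).1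
      linarith
    · simp only [h, if_false] at h3 h4
      obtain ⟨a1, a2, -⟩ := hact i j e h1 h2 h
      exact I.vis i j e a1 a2 a b hab h3 h4
  · intro i j k l e h1 h2 e' h3 h4 hb
    by_cases h : i = m
    · by_cases h' : k = m
      · simp [h, h']
      · obtain ⟨a1, a2, -⟩ := hact k l e' h3 h4 h'
        simp only [h, if_true, h', if_false]
        exact (hq _ (I.posmem k l e' a1 a2).1).le
    · obtain ⟨a1, a2, a3⟩ := hact i j e h1 h2 h
      by_cases h' : k = m
      · exfalso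
        subst h'
        exact D.bel_asymm e e' hb (D.out_bel_above e' e a1 a3 (habove i j e a1 a3))
      · obtain ⟨b1, b2, -⟩ := hact k l e' h3 h4 h'
        simp only [h, if_false, h']
        exact I.mono i j k l e a1 a2 e' b1 b2 hb
  · intro i hi
    by_cases h : i = m
    · exact ⟨q, Finset.mem_insert_self _ _, by simp [h]⟩
    · obtain ⟨x, hx, hl⟩ := I.surj i (by omega)
      exact ⟨x, Finset.mem_insert_of_mem hx, by rw [if_neg (hne x hx), hl]⟩

/-- the new labels -/
noncomputable def lab' (lab : ℝ → ℕ) (m : ℕ) (p₀ q₁ q₂ : ℝ) (x : ℝ) : ℕ :=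
  if x = q₁ then m else if x = q₂ then lab p₀ else lab x

/-- the new arcs -/
def U' (E : ℕ → ℕ → Prop) (U : ℝ → ℝ → Prop) (pos : ℕ → ℕ → ℝ) (m : ℕ) (p₀ q₁ q₂ : ℝ)
    (a b : ℝ) : Prop :=
  (U a b ∧ a ≠ p₀) ∨ (a = q₂ ∧ U p₀ b) ∨ (a = q₁ ∧ p₀ < b ∧ ∃ i, E i m ∧ b = pos i m) ∨
    (a = p₀ ∧ b = q₁ ∧ ∃ i, E i m ∧ pos i m = p₀)

open Classical in
/-- the new positions of the active edges -/
noncomputable def pos' (X Y : ℕ → ℝ) (pos : ℕ → ℕ → ℝ) (m : ℕ) (p₀ q₁ q₂ : ℝ)
    (i j : ℕ) : ℝ :=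
  if i = m then q₁ else if Above X Y m i j ∧ pos i j = p₀ then q₂ else pos i j

lemma exists_gap (P : Finset ℝ) (p₀ : ℝ) :
    ∃ q₁ q₂ : ℝ, p₀ < q₁ ∧ q₁ < q₂ ∧ ∀ x ∈ P, p₀ < x → q₂ < x := by
  classical
  obtain ⟨q, hq, hq'⟩ : ∃ q : ℝ, p₀ < q ∧ ∀ x ∈ P, p₀ < x → q < x := by
    rcases (P.filter (fun x => p₀ < x)).eq_empty_or_nonempty with h | h
    · refine ⟨p₀ + 1, by linarith, fun x hx hx' => ?_⟩
      have : x ∈ P.filter (fun x => p₀ < x) := by simp [hx, hx']
      rw [h] at this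
      simp at this
    · have h1 := (P.filter (fun x => p₀ < x)).min'_mem h
      have h2 : p₀ < (P.filter (fun x => p₀ < x)).min' h := by
        exact (Finset.mem_filter.1 h1).2
      refine ⟨(p₀ + (P.filter (fun x => p₀ < x)).min' h) / 2, by linarith, fun x hx hx' => ?_⟩
      have := (P.filter (fun x => p₀ < x)).min'_le x (by simp [hx, hx'])
      linarith
  exact ⟨(p₀ + q) / 2, q, by linarith, by linarith, hq'⟩

lemma Inv.step_anchor (D : Drawing s X Y E) {m : ℕ} {P : Finset ℝ} {lab : ℝ → ℕ}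
    {U : ℝ → ℝ → Prop} {pos : ℕ → ℕ → ℝ} (I : Inv X Y E m P lab U pos)
    {p₀ : ℝ} (hp₀ : p₀ ∈ P) (hvis₀ : ∀ a b, U a b → a < p₀ → p₀ < b → False)
    (hbelow : ∀ k l, E k l → k < m → m < l → ¬ Above X Y m k l → pos k l ≤ p₀)
    (habove : ∀ k l, E k l → k < m → m < l → Above X Y m k l → p₀ ≤ pos k l)
    (hin : ∀ i, E i m → p₀ ≤ pos i m)
    (hina : ∀ i k l, E i m → E k l → k < m → m < l → Above X Y m k l → pos i m ≤ pos k l) :
    ∃ P' lab' U' pos', Inv X Y E (m + 1) P' lab' U' pos' := by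
  classical
  obtain ⟨q₁, q₂, hq1, hq2, hq⟩ := exists_gap P p₀
  have hq1P : q₁ ∉ P := fun h => absurd (hq _ h hq1) (not_lt.2 hq2.le)
  have hq2P : q₂ ∉ P := fun h => absurd (hq _ h (hq1.trans hq2)) (lt_irrefl _)
  have hn1 : ∀ x ∈ P, x ≠ q₁ := fun x hx h => hq1P (h ▸ hx)
  have hn2 : ∀ x ∈ P, x ≠ q₂ := fun x hx h => hq2P (h ▸ hx)
  have hle : ∀ x ∈ P, x < q₂ → x ≤ p₀ := by
    intro x hx h
    by_contra hcon
    exact absurd (hq x hx (not_le.1 hcon)) (not_lt.2 h.le)
  have hge : ∀ x ∈ P, q₁ < x → q₂ < x := by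
    intro x hx h
    exact hq x hx (hq1.trans h)
  have hlabP : ∀ x ∈ P, lab' lab m p₀ q₁ q₂ x = lab x := by
    intro x hx
    simp [lab', hn1 x hx, hn2 x hx]
  have hlab1 : lab' lab m p₀ q₁ q₂ q₁ = m := by simp [lab']
  have hlab2 : lab' lab m p₀ q₁ q₂ q₂ = lab p₀ := by simp [lab', hq2.ne']
  have hact : ∀ i j, E i j → i < m + 1 → m + 1 ≤ j → i ≠ m → i < m ∧ m ≤ j ∧ m < j := by
    intro i j _ h1 h2 h3; omega
  have hinP : ∀ i, E i m → pos i m ∈ P ∧ lab (pos i m) = i := by
    intro i e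
    exact I.posmem i m e (D.lt _ _ e).1 le_rfl
  have hmem : ∀ x, x ∈ insert q₁ (insert q₂ P) ↔ x = q₁ ∨ x = q₂ ∨ x ∈ P := by
    intro x; simp
  -- old arcs and the new ones
  have hU : ∀ a b, U' E U pos m p₀ q₁ q₂ a b →
      (a ∈ insert q₁ (insert q₂ P)) ∧ (b ∈ insert q₁ (insert q₂ P)) ∧ a < b := by
    rintro a b (⟨h, -⟩ | ⟨rfl, h⟩ | ⟨rfl, h, i, e, rfl⟩ | ⟨rfl, rfl, i, e, h⟩)
    · obtain ⟨a1, a2, a3⟩ := I.Umem a b h
      simp [a1, a2, a3]
    · obtain ⟨a1, a2, a3⟩ := I.Umem p₀ b h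
      simp [a2, hq b a2 a3]
    · have := (hinP i e).1
      simp [this, hq2.trans (hq _ this h)]
    · simp [hp₀, hq1]
  refine ⟨insert q₁ (insert q₂ P), lab' lab m p₀ q₁ q₂, U' E U pos m p₀ q₁ q₂,
    pos' X Y pos m p₀ q₁ q₂, ?_⟩
  constructor
  · -- card
    rw [Finset.card_insert_of_notMem (by simp [hq2.ne, hq1P]), Finset.card_insert_of_notMem hq2P]
    have := I.card; omega
  · -- posmem
    intro i j e h1 h2
    unfold pos'
    by_cases h : i = m
    · rw [if_pos h]; simp [hlab1, h]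
    · obtain ⟨a1, a2, -⟩ := hact i j e h1 h2 h
      obtain ⟨b1, b2⟩ := I.posmem i j e a1 a2
      rw [if_neg h]
      split_ifs with hc
      · rw [hlab2, ← hc.2]
        exact ⟨by simp, b2⟩
      · rw [hlabP _ b1]
        exact ⟨by simp [b1], b2⟩
  · -- lablt
    intro x hx
    rcases (hmem x).1 hx with rfl | rfl | hx
    · rw [hlab1]; omega
    · rw [hlab2]
      have := I.lablt p₀ hp₀; omega
    · rw [hlabP x hx]
      have := I.lablt x hx; omega
  · exact hU
  · -- nc
    rintro a b c d (⟨h, hne⟩ | ⟨rfl, h⟩ | ⟨rfl, h, i, e, rfl⟩ | ⟨rfl, rfl, i, e, h⟩)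
      (⟨h', hne'⟩ | ⟨rfl, h'⟩ | ⟨rfl, h', i', e', rfl⟩ | ⟨rfl, rfl, i', e', h'⟩) hac hcb hbd
    · exact I.nc a b c d h h' hac hcb hbd
    · obtain ⟨a1, a2, a3⟩ := I.Umem a b h
      have h1 : a < p₀ := lt_of_le_of_ne (hle a a1 hac) hne
      exact hvis₀ a b h h1 (by linarith)
    · obtain ⟨a1, a2, a3⟩ := I.Umem a b h
      have h1 : a < p₀ := lt_of_le_of_ne (hle a a1 (hac.trans hq2)) hne
      exact hvis₀ a b h h1 (by linarith)
    · obtain ⟨a1, a2, a3⟩ := I.Umem a b h
      have := hq b a2 hcb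
      linarith
    · exact I.nc p₀ b c d h h' (by linarith) hcb hbd
    · exact lt_irrefl _ hac
    · linarith
    · linarith
    · have hb := hinP i e
      exact I.vis i m e (D.lt _ _ e).1 le_rfl c d h' hcb hbd
    · have hb := hinP i e
      exact I.vis i m e (D.lt _ _ e).1 le_rfl p₀ d h' h hbd
    · exact lt_irrefl _ hac
    · linarith
    · obtain ⟨a1, a2, a3⟩ := I.Umem c d h'
      have := hq c a1 hac
      linarith
    · linarith
    · exact lt_irrefl _ hcb
    · exact lt_irrefl _ hac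
  · -- abab
    intro a b c d ha hb hc hd h1 h2 h3 h4 h5
    -- no one is q₁
    have hm1 : ∀ x, x ∈ insert q₁ (insert q₂ P) → lab' lab m p₀ q₁ q₂ x = m → x = q₁ := by
      intro x hx hl
      rcases (hmem x).1 hx with rfl | rfl | hx
      · rfl
      · rw [hlab2] at hl
        have := I.lablt p₀ hp₀; omega
      · rw [hlabP x hx] at hl
        have := I.lablt x hx; omega
    have hna : a ≠ q₁ := by
      rintro rfl
      have := hm1 b hb (by rw [← h4, hlab1])
      linarith
    have hnb : b ≠ q₁ := by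
      rintro rfl
      have := hm1 a ha (by rw [h4, hlab1])
      linarith
    have hnc : c ≠ q₁ := by
      rintro rfl
      have := hm1 d hd (by rw [← h5, hlab1])
      linarith
    have hnd : d ≠ q₁ := by
      rintro rfl
      have := hm1 c hc (by rw [h5, hlab1])
      linarith
    -- projection
    set π : ℝ → ℝ := fun x => if x = q₂ then p₀ else x with hπ
    have hπP : ∀ x, x ∈ insert q₁ (insert q₂ P) → x ≠ q₁ → π x ∈ P ∧
        lab' lab m p₀ q₁ q₂ x = lab (π x) := by
      intro x hx hx1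
      rcases (hmem x).1 hx with rfl | rfl | hx
      · exact absurd rfl hx1
      · simp only [hπ, if_true]
        exact ⟨hp₀, hlab2⟩
      · simp only [hπ, if_neg (hn2 x hx)]
        exact ⟨hx, hlabP x hx⟩
    have hπmono : ∀ x y, x ∈ insert q₁ (insert q₂ P) → y ∈ insert q₁ (insert q₂ P) → x ≠ q₁ →
        y ≠ q₁ → x < y → π x ≤ π y := by
      intro x y hx hy hx1 hy1 hxy
      simp only [hπ]
      split_ifs with e1 e2 e2
      · exact le_rfl
      · rw [e1] at hxy; linarith
      · rw [e2] at hxy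
        rcases (hmem x).1 hx with h | h | h
        · exact absurd h hx1
        · exact absurd h e1
        · exact hle x h hxy
      · exact hxy.le
    obtain ⟨a1, a2⟩ := hπP a ha hna
    obtain ⟨b1, b2⟩ := hπP b hb hnb
    obtain ⟨c1, c2⟩ := hπP c hc hnc
    obtain ⟨d1, d2⟩ := hπP d hd hnd
    have m1 := hπmono a c ha hc hna hnc h1
    have m2 := hπmono c b hc hb hnc hnb h2
    have m3 := hπmono b d hb hd hnb hnd h3
    rw [a2, b2] at h4
    rw [c2, d2] at h5
    rw [a2, c2]
    rcases m1.eq_or_lt with e1 | e1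
    · rw [e1]
    rcases m2.eq_or_lt with e2 | e2
    · rw [e2, h4]
    rcases m3.eq_or_lt with e3 | e3
    · rw [h4, e3, h5]
    exact I.abab _ _ _ _ a1 b1 c1 d1 e1 e2 e3 h4 h5
  · -- edge
    intro i j e hj
    by_cases hjm : j = m
    · subst hjm
      obtain ⟨b1, b2⟩ := hinP i e
      rcases (hin i e).eq_or_lt with h | h
      · refine ⟨p₀, q₁, Or.inr (Or.inr (Or.inr ⟨rfl, rfl, i, e, h.symm⟩)), Or.inl ?_⟩
        rw [hlabP p₀ hp₀, hlab1, h]
        exact ⟨b2, rfl⟩
      · refine ⟨q₁, pos i j, Or.inr (Or.inr (Or.inl ⟨rfl, h, i, e, rfl⟩)), Or.inr ?_⟩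
        rw [hlabP _ b1, hlab1]
        exact ⟨rfl, b2⟩
    · obtain ⟨a, b, hab, h⟩ := I.edge i j e (by omega)
      obtain ⟨a1, a2, a3⟩ := I.Umem a b hab
      by_cases ha : a = p₀
      · subst ha
        refine ⟨q₂, b, Or.inr (Or.inl ⟨rfl, hab⟩), ?_⟩
        rw [hlab2, hlabP b a2]
        exact h
      · refine ⟨a, b, Or.inl ⟨hab, ha⟩, ?_⟩
        rw [hlabP a a1, hlabP b a2]
        exact h
  · -- vis
    intro i j e h1 h2 a b hab h3 h4
    unfold pos' at h3 h4
    by_cases h : i = m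
    · rw [if_pos h] at h3 h4
      rcases hab with ⟨hab, hne⟩ | ⟨rfl, hab⟩ | ⟨rfl, _⟩ | ⟨rfl, rfl, _⟩
      · obtain ⟨a1, a2, a3⟩ := I.Umem a b hab
        exact hvis₀ a b hab (lt_of_le_of_ne (hle a a1 (h3.trans hq2)) hne) (hq1.trans h4)
      · linarith
      · exact lt_irrefl _ h3
      · exact lt_irrefl _ h4
    · obtain ⟨a1, a2, a3⟩ := hact i j e h1 h2 h
      obtain ⟨b1, b2⟩ := I.posmem i j e a1 a2
      rw [if_neg h] at h3 h4
      by_cases hc : Above X Y m i j ∧ pos i j = p₀
      · rw [if_pos hc] at h3 h4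
        rcases hab with ⟨hab, hne⟩ | ⟨rfl, hab⟩ | ⟨rfl, hb, i', e', rfl⟩ | ⟨rfl, rfl, _⟩
        · obtain ⟨c1, c2, c3⟩ := I.Umem a b hab
          exact hvis₀ a b hab (lt_of_le_of_ne (hle a c1 h3) hne) (by linarith)
        · exact lt_irrefl _ h3
        · have := hina i' i j e' e a1 a3 hc.1
          rw [hc.2] at this
          linarith
        · linarith
      · rw [if_neg hc] at h3 h4
        rcases hab with ⟨hab, hne⟩ | ⟨rfl, hab⟩ | ⟨rfl, hb, i', e', rfl⟩ | ⟨rfl, rfl, _⟩
        · exact I.vis i j e a1 a2 a b hab h3 h4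
        · exact I.vis i j e a1 a2 p₀ b hab (by linarith) h4
        · -- pos i j > q₁, so the edge passes above
          by_cases hab : Above X Y m i j
          · have := hina i' i j e' e a1 a3 hab
            linarith
          · have := hbelow i j e a1 a3 hab
            linarith
        · have := hq _ b1 h3
          linarith
  · -- mono
    intro i j k l e h1 h2 e' h3 h4 hb
    unfold pos'
    by_cases h : i = m
    · by_cases h' : k = m
      · rw [if_pos h, if_pos h']
      · obtain ⟨a1, a2, a3⟩ := hact k l e' h3 h4 h'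
        rw [if_pos h, if_neg h']
        subst h
        -- the edge kl passes above
        have hA : Above X Y i k l := by
          by_contra hA
          exact D.bel_asymm e e' hb (D.below_bel_out e e' a1 a3 hA)
        have hge' := habove k l e' a1 a3 hA
        split_ifs with hc
        · exact hq2.le
        · have : p₀ < pos k l := lt_of_le_of_ne hge' (fun h => hc ⟨hA, h.symm⟩)
          exact (hq2.trans (hq _ (I.posmem k l e' a1 a2).1 this)).le
    · obtain ⟨a1, a2, a3⟩ := hact i j e h1 h2 h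
      rw [if_neg h]
      by_cases h' : k = m
      · rw [if_pos h']
        subst h'
        have hA : ¬ Above X Y k i j := by
          intro hA
          exact D.bel_asymm e e' hb (D.out_bel_above e' e a1 a3 hA)
        rw [if_neg (fun hc => hA hc.1)]
        exact (hbelow i j e a1 a3 hA).trans hq1.le
      · obtain ⟨b1, b2, b3⟩ := hact k l e' h3 h4 h'
        rw [if_neg h']
        have hm := I.mono i j k l e a1 a2 e' b1 b2 hb
        by_cases hc : Above X Y m i j ∧ pos i j = p₀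
        · rw [if_pos hc]
          have hA := D.above_of_bel e e' a1 a3 b1 b3 hb hc.1
          split_ifs with hc'
          · exact le_rfl
          · have h5 := habove k l e' b1 b3 hA
            have : p₀ < pos k l := lt_of_le_of_ne h5 (fun h => hc' ⟨hA, h.symm⟩)
            exact (hq _ (I.posmem k l e' b1 b2).1 this).le
        · rw [if_neg hc]
          split_ifs with hc'
          · rw [hc'.2] at hm
            linarith
          · exact hm
  · -- surj
    intro i hi
    by_cases h : i = m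
    · exact ⟨q₁, by simp, by rw [hlab1, h]⟩
    · obtain ⟨x, hx, hl⟩ := I.surj i (by omega)
      exact ⟨x, by simp [hx], by rw [hlabP x hx, hl]⟩

lemma exists_inv (D : Drawing s X Y E) (m : ℕ) (hm : m ≤ s) :
    ∃ P lab U pos, Inv X Y E m P lab U pos := by
  induction m with
  | zero =>
    refine ⟨∅, fun _ => 0, fun _ _ => False, fun _ _ => 0, ?_⟩
    constructor <;> simp
  | succ m ih =>
    obtain ⟨P, lab, U, pos, I⟩ := ih (by omega)
    by_cases hin : ∃ i, E i m
    · obtain ⟨i₀, e₀, hlow⟩ := D.exists_lowest_in hin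
      have hi₀ := (D.lt _ _ e₀).1
      obtain ⟨b1, b2⟩ := I.posmem i₀ m e₀ hi₀ le_rfl
      refine I.step_anchor D b1 (fun a b hab h1 h2 => I.vis i₀ m e₀ hi₀ le_rfl a b hab h1 h2)
        ?_ ?_ ?_ ?_
      · intro k l e hk hl hA
        exact I.mono k l i₀ m e hk hl.le e₀ hi₀ le_rfl (D.below_bel_in e₀ e hk hl hA)
      · intro k l e hk hl hA
        exact I.mono i₀ m k l e₀ hi₀ le_rfl e hk hl.le (D.in_bel_above e₀ e hk hl hA)
      · intro i e
        by_cases h : i = i₀
        · rw [h]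
        · exact I.mono i₀ m i m e₀ hi₀ le_rfl e (D.lt _ _ e).1 le_rfl (hlow i e h)
      · intro i k l e e' hk hl hA
        exact I.mono i m k l e (D.lt _ _ e).1 le_rfl e' hk hl.le (D.in_bel_above e e' hk hl hA)
    · push Not at hin
      by_cases hex : ∃ k l, E k l ∧ k < m ∧ m < l ∧ ¬ Above X Y m k l
      · obtain ⟨k₀, l₀, e₀, hk₀, hl₀, hA₀, hhigh⟩ := D.exists_highest_below hex
        obtain ⟨b1, b2⟩ := I.posmem k₀ l₀ e₀ hk₀ hl₀.le
        refine I.step_anchor D b1
          (fun a b hab h1 h2 => I.vis k₀ l₀ e₀ hk₀ hl₀.le a b hab h1 h2) ?_ ?_ ?_ ?_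
        · intro k l e hk hl hA
          by_cases h : k ≠ k₀ ∨ l ≠ l₀
          · exact I.mono k l k₀ l₀ e hk hl.le e₀ hk₀ hl₀.le (hhigh k l e hk hl hA h)
          · push Not at h
            rw [h.1, h.2]
        · intro k l e hk hl hA
          exact I.mono k₀ l₀ k l e₀ hk₀ hl₀.le e hk hl.le
            (D.bel_of_below_above e₀ e hk₀ hl₀ hk hl hA₀ hA)
        · intro i e
          exact absurd e (hin i)
        · intro i k l e
          exact absurd e (hin i)
      · push Not at hex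
        exact I.step_left D hin (fun k l e hk hl => hex k l e hk hl)

/-- A noncrossing arc system on the positions `0, …, L-1`, whose positions carry labels in `V`. -/
structure ArcSystem (V : Type) (H : SimpleGraph V) (L : ℕ) where
  /-- the label of a position -/
  lab : Fin L → V
  /-- the upper arcs -/
  U : Fin L → Fin L → Prop
  U_lt : ∀ a b, U a b → a < b
  nc : ∀ a b c d, U a b → U c d → a < c → c < b → b < d → False
  abab : ∀ a b c d, a < c → c < b → b < d → lab a = lab b → lab c = lab d → lab a = lab c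
  edge : ∀ u v, H.Adj u v → ∃ a b, U a b ∧ ((lab a = u ∧ lab b = v) ∨ (lab a = v ∧ lab b = u))
  surj : ∀ v, ∃ a, lab a = v

end Pool.Agent.Lib.MP_69d199_co
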