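import Pool.Agent.Lib.MP_69d199_co.Defs
import Pool.Agent.Lib.MP_69d199_co.Sweep

/-!
# A planar graph is obtained from a noncrossing arc system on at most `2|V|` positions
-/

set_option autoImplicit false

namespace Pool.Agent.Lib.MP_69d199_co

lemma exists_shear {V : Type} [Fintype V] (p : V → ℝ × ℝ) (hp : Function.Injective p) :
    ∃ ε : ℝ, Function.Injective (fun v => (p v).1 + ε * (p v).2) := by
  classical
  have hfin : (⋃ uv : V × V, {ε : ℝ | uv.1 ≠ uv.2 ∧
      (p uv.1).1 + ε * (p uv.1).2 = (p uv.2).1 + ε * (p uv.2).2}).Finite := by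
    apply Set.finite_iUnion
    rintro ⟨u, v⟩
    by_cases huv : u = v
    · simp [huv]
    by_cases h2 : (p u).2 = (p v).2
    · have h1 : (p u).1 ≠ (p v).1 := fun h1 => huv (hp (Prod.ext h1 h2))
      convert Set.finite_empty
      ext ε
      simp only [Set.mem_ofPred_eq, Set.mem_empty_iff_false, iff_false, not_and]
      intro _ h
      rw [h2] at h
      exact h1 (by linarith)
    · apply Set.Finite.subset (Set.finite_singleton (((p v).1 - (p u).1) / ((p u).2 - (p v).2)))
      intro ε h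
      simp only [Set.mem_ofPred_eq] at h
      have hne : (p u).2 - (p v).2 ≠ 0 := sub_ne_zero.2 h2
      rw [Set.mem_singleton_iff, eq_div_iff hne]
      linarith [h.2]
  obtain ⟨ε, hε⟩ := hfin.exists_notMem
  refine ⟨ε, fun u v h => ?_⟩
  by_contra hne
  exact hε (Set.mem_iUnion.2 ⟨(u, v), hne, h⟩)

lemma exists_sorted {V : Type} [Fintype V] (f : V → ℝ) (hf : Function.Injective f) (s : ℕ)
    (hs : Fintype.card V = s) :
    ∃ e : Fin s ≃ V, StrictMono (fun i => f (e i)) := by
  classical
  subst hs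
  set e₀ : Fin (Fintype.card V) ≃ V := (Fintype.equivFin V).symm
  refine ⟨(Tuple.sort (fun i => f (e₀ i))).trans e₀, ?_⟩
  have h := Tuple.monotone_sort (fun i => f (e₀ i))
  refine h.strictMono_of_injective ?_
  intro i j hij
  have := hf hij
  simpa using this

theorem exists_arcSystem {V : Type} [Fintype V] (H : SimpleGraph V) (hH : IsPlanar H) :
    ∃ L ≤ 2 * Fintype.card V, Nonempty (ArcSystem V H L) := by
  classical
  obtain ⟨p, hp, hp1, hp2⟩ := hH
  obtain ⟨ε, hε⟩ := exists_shear p hp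
  obtain ⟨s, hs⟩ : ∃ s, Fintype.card V = s := ⟨_, rfl⟩
  obtain ⟨e, he⟩ := exists_sorted _ hε s hs
  rw [hs]
  -- coordinates
  set X : ℕ → ℝ := fun i => if h : i < s then (p (e ⟨i, h⟩)).1 + ε * (p (e ⟨i, h⟩)).2 else 0
    with hX
  set Y : ℕ → ℝ := fun i => if h : i < s then (p (e ⟨i, h⟩)).2 else 0 with hY
  have hXi : ∀ i (h : i < s), X i = (p (e ⟨i, h⟩)).1 + ε * (p (e ⟨i, h⟩)).2 := by
    intro i h; simp [hX, h]
  have hYi : ∀ i (h : i < s), Y i = (p (e ⟨i, h⟩)).2 := by
    intro i h; simp [hY, h]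
  set E : ℕ → ℕ → Prop := fun i j => ∃ (hi : i < s) (hj : j < s), i < j ∧
    H.Adj (e ⟨i, hi⟩) (e ⟨j, hj⟩) with hE
  have hmono : ∀ i j, i < j → j < s → X i < X j := by
    intro i j hij hj
    rw [hXi i (hij.trans hj), hXi j hj]
    exact he (show (⟨i, hij.trans hj⟩ : Fin s) < ⟨j, hj⟩ from hij)
  -- a point of the segment
  have hpt : ∀ i j (hi : i < s) (hj : j < s), i < j → ∀ x, X i < x → x < X j →
      ((x - ε * seg X Y i j x, seg X Y i j x) : ℝ × ℝ) ∈
        segment ℝ (p (e ⟨i, hi⟩)) (p (e ⟨j, hj⟩)) := by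
    intro i j hi hj hij x h1 h2
    have hlt := hmono i j hij hj
    have hpos : 0 < X j - X i := by linarith
    set τ := (x - X i) / (X j - X i) with hτ
    have hτ0 : 0 ≤ τ := div_nonneg (by linarith) hpos.le
    have hτ1 : τ ≤ 1 := by rw [hτ, div_le_one hpos]; linarith
    have hx : x = X i + (X j - X i) * τ := by
      rw [hτ]; field_simp; ring
    refine ⟨1 - τ, τ, by linarith, hτ0, by ring, ?_⟩
    have hseg : seg X Y i j x = Y i + (Y j - Y i) * τ := rfl
    rw [hseg]
    have e1 := hXi i hi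
    have e2 := hXi j hj
    have e3 := hYi i hi
    have e4 := hYi j hj
    ext
    · simp only [Prod.fst_add, Prod.smul_fst, smul_eq_mul]
      rw [hx, e1, e2, e3, e4]
      ring
    · simp only [Prod.snd_add, Prod.smul_snd, smul_eq_mul]
      rw [e3, e4]
      ring
  have D : Drawing s X Y E := by
    constructor
    · rintro i j ⟨hi, hj, hij, -⟩
      exact ⟨hij, hj⟩
    · exact hmono
    · rintro i j k ⟨hi, hj, hij, hadj⟩ hik hkj heq
      have hk : k < s := hkj.trans hj
      have h := hpt i j hi hj hij (X k) (hmono i k hik hk) (hmono k j hkj hj)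
      rw [heq] at h
      have hpk : ((X k - ε * Y k, Y k) : ℝ × ℝ) = p (e ⟨k, hk⟩) := by
        rw [hXi k hk, hYi k hk]
        ext
        · simp
        · simp
      rw [hpk] at h
      rcases hp1 _ _ _ hadj h with h' | h'
      · have := congrArg Fin.val (e.injective h')
        simp at this; omega
      · have := congrArg Fin.val (e.injective h')
        simp at this; omega
    · rintro i j k l ⟨hi, hj, hij, hadj⟩ ⟨hk, hl, hkl, hadj'⟩ hne x h1 h2 h3 h4 heq
      have a := hpt i j hi hj hij x h1 h2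
      have b := hpt k l hk hl hkl x h3 h4
      rw [← heq] at b
      have hs : s(e ⟨i, hi⟩, e ⟨j, hj⟩) ≠ s(e ⟨k, hk⟩, e ⟨l, hl⟩) := by
        intro h
        rw [Sym2.eq_iff] at h
        rcases h with ⟨h5, h6⟩ | ⟨h5, h6⟩
        · have h7 := congrArg Fin.val (e.injective h5)
          have h8 := congrArg Fin.val (e.injective h6)
          simp at h7 h8
          rcases hne with h | h
          · exact h h7
          · exact h h8
        · have h7 := congrArg Fin.val (e.injective h5)
          have h8 := congrArg Fin.val (e.injective h6)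
          simp at h7 h8
          omega
      have hq := (hp2 _ _ _ _ hadj hadj' hs _ a b).1
      rcases hq with hq | hq
      · have e1 := congrArg Prod.fst hq
        have e2 := congrArg Prod.snd hq
        simp only at e1 e2
        have := hXi i hi
        rw [← e1, ← e2] at this
        linarith
      · have e1 := congrArg Prod.fst hq
        have e2 := congrArg Prod.snd hq
        simp only at e1 e2
        have := hXi j hj
        rw [← e1, ← e2] at this
        linarith
  obtain ⟨P, lab, U, pos, I⟩ := exists_inv D s le_rfl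
  have hcard := I.card
  set φ : Fin P.card ≃o P := P.orderIsoOfFin rfl with hφ
  have hφlt : ∀ a b : Fin P.card, a < b → (φ a : ℝ) < φ b := by
    intro a b h
    exact_mod_cast φ.strictMono h
  refine ⟨P.card, hcard, ⟨?_⟩⟩
  refine
    { lab := fun a => e ⟨lab (φ a), I.lablt _ (φ a).2⟩
      U := fun a b => U (φ a) (φ b)
      U_lt := ?_
      nc := ?_
      abab := ?_
      edge := ?_
      surj := ?_ }
  · intro a b h
    have := (I.Umem _ _ h).2.2
    exact φ.lt_iff_lt.1 (by exact_mod_cast this)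
  · intro a b c d h h' h1 h2 h3
    exact I.nc _ _ _ _ h h' (hφlt _ _ h1) (hφlt _ _ h2) (hφlt _ _ h3)
  · intro a b c d h1 h2 h3 h4 h5
    have h4' := congrArg Fin.val (e.injective h4)
    have h5' := congrArg Fin.val (e.injective h5)
    simp only at h4' h5'
    have := I.abab _ _ _ _ (φ a).2 (φ b).2 (φ c).2 (φ d).2 (hφlt _ _ h1) (hφlt _ _ h2)
      (hφlt _ _ h3) h4' h5'
    simp only [this]
  · -- edges
    have key : ∀ i j (hi : i < s) (hj : j < s), i < j → H.Adj (e ⟨i, hi⟩) (e ⟨j, hj⟩) →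
        ∃ a b : Fin P.card, U (φ a) (φ b) ∧
          ((e ⟨lab (φ a), I.lablt _ (φ a).2⟩ = e ⟨i, hi⟩ ∧
            e ⟨lab (φ b), I.lablt _ (φ b).2⟩ = e ⟨j, hj⟩) ∨
          (e ⟨lab (φ a), I.lablt _ (φ a).2⟩ = e ⟨j, hj⟩ ∧
            e ⟨lab (φ b), I.lablt _ (φ b).2⟩ = e ⟨i, hi⟩)) := by
      intro i j hi hj hij hadj
      obtain ⟨a, b, hab, h⟩ := I.edge i j ⟨hi, hj, hij, hadj⟩ hj
      obtain ⟨ha, hb, -⟩ := I.Umem a b hab
      refine ⟨φ.symm ⟨a, ha⟩, φ.symm ⟨b, hb⟩, by simpa using hab, ?_⟩
      simp only [OrderIso.apply_symm_apply]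
      rcases h with ⟨h1, h2⟩ | ⟨h1, h2⟩
      · left; simp only [h1, h2, and_self]
      · right; simp only [h1, h2, and_self]
    intro u v huv
    obtain ⟨⟨i, hi⟩, rfl⟩ := e.surjective u
    obtain ⟨⟨j, hj⟩, rfl⟩ := e.surjective v
    rcases lt_trichotomy i j with h | h | h
    · exact key i j hi hj h huv
    · subst h; exact absurd rfl huv.ne
    · obtain ⟨a, b, hab, h'⟩ := key j i hj hi h huv.symm
      exact ⟨a, b, hab, h'.symm⟩
  · intro v
    obtain ⟨⟨i, hi⟩, rfl⟩ := e.surjective v
    obtain ⟨x, hx, hl⟩ := I.surj i hi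
    refine ⟨φ.symm ⟨x, hx⟩, ?_⟩
    simp only [OrderIso.apply_symm_apply, hl]

end Pool.Agent.Lib.MP_69d199_co
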