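import Pool.Agent.Lib.MP_69d199_co.Arm
import Pool.Agent.Lib.MP_69d199_co.Planar

/-!
# Drawing an arc system in a frame of the grid
-/

set_option autoImplicit false

namespace Pool.Agent.Lib.MP_69d199_co

/-- columns, rows above, rows below and stubs in the middle row -/
structure Frame (L : ℕ) where
  /-- the columns -/
  col : Fin L → ℤ
  /-- the rows above the middle row `ρ 0` -/
  ρ : ℕ → ℤ
  /-- the rows below the middle row -/
  σ : ℕ → ℤ
  /-- the ends of the stubs -/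
  h : Fin L → ℤ
  hcol : StrictMono col
  hρ : StrictMono ρ
  hσ : StrictAnti σ
  h0 : σ 0 = ρ 0
  hh : ∀ p, col p < h p
  hh' : ∀ p q, p < q → h p ≤ col q

variable {V : Type} {H : SimpleGraph V} {L : ℕ}

/-- the lower arcs: consecutive positions with the same label -/
def Low (S : ArcSystem V H L) (a b : Fin L) : Prop :=
  a < b ∧ S.lab a = S.lab b ∧ ∀ c, a < c → c < b → S.lab c ≠ S.lab a

lemma nc_U (S : ArcSystem V H L) : NC S.U := ⟨S.U_lt, S.nc⟩

lemma nc_Low (S : ArcSystem V H L) : NC (Low S) := by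
  refine ⟨fun a b h => h.1, ?_⟩
  intro a b c d h h' h1 h2 h3
  exact h.2.2 c h1 h2 (S.abab a b c d h1 h2 h3 h.2.1 h'.2.1).symm

/-- the piece of the drawing at the position `p` -/
def Piece (S : ArcSystem V H L) (F : Frame L) (p : Fin L) : Set (ℤ × ℤ) :=
  Arm S.U F.ρ F.col p ∪ Arm (Low S) F.σ F.col p ∪
    {z | z.2 = F.ρ 0 ∧ F.col p ≤ z.1 ∧ z.1 < F.h p}

lemma base_mem_piece (S : ArcSystem V H L) (F : Frame L) (p : Fin L) :
    (F.col p, F.ρ 0) ∈ Piece S F p := Or.inl (Or.inl (base_mem_arm p))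

lemma piece_join_base (S : ArcSystem V H L) (F : Frame L) {p : Fin L} {z : ℤ × ℤ}
    (hz : z ∈ Piece S F p) : Join zgrid (Piece S F p) z (F.col p, F.ρ 0) := by
  rcases hz with (hz | hz) | hz
  · exact (arm_join_base (nc_U S) hz).mono (fun x hx => Or.inl (Or.inl hx))
  · have := (arm_join_base (nc_Low S) hz).mono (T' := Piece S F p)
      (fun x hx => Or.inl (Or.inr hx))
    rw [F.h0] at this
    exact this
  · obtain ⟨h1, h2, h3⟩ := hz
    have := join_horiz (S := Piece S F p) (F.ρ 0) (F.col p) z.1 h2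
      (fun x hx1 hx2 => Or.inr ⟨rfl, hx1, lt_of_le_of_lt hx2 h3⟩)
    have hz' : z = (z.1, F.ρ 0) := Prod.ext rfl h1
    rw [hz']
    exact this.symm

lemma piece_disjoint_aux (S : ArcSystem V H L) (F : Frame L) {p q : Fin L} (hpq : p ≠ q)
    {z : ℤ × ℤ} (h1 : z ∈ Arm S.U F.ρ F.col p) (h2 : z ∈ Arm (Low S) F.σ F.col q) : False := by
  have a1 := arm_up F.hρ h1
  have a2 := arm_down F.hσ h2
  rw [F.h0] at a2
  have a3 : z.2 = F.ρ 0 := le_antisymm a2 a1
  have b1 := arm_base_row (nc_U S) (rows_of_strictMono F.hρ) h1 a3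
  have b2 := arm_base_row (nc_Low S) (rows_of_strictAnti F.hσ) h2 (by rw [a3, F.h0])
  exact hpq (F.hcol.injective (b1.symm.trans b2))

lemma piece_stub_aux (S : ArcSystem V H L) (F : Frame L) {p q : Fin L} (hpq : p ≠ q)
    {z : ℤ × ℤ} (h1 : z ∈ Arm S.U F.ρ F.col p ∪ Arm (Low S) F.σ F.col p)
    (h2 : z.2 = F.ρ 0 ∧ F.col q ≤ z.1 ∧ z.1 < F.h q) : False := by
  have h3 : z.1 = F.col p := by
    rcases h1 with h1 | h1
    · exact arm_base_row (nc_U S) (rows_of_strictMono F.hρ) h1 h2.1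
    · exact arm_base_row (nc_Low S) (rows_of_strictAnti F.hσ) h1 (by rw [h2.1, F.h0])
  rcases lt_or_gt_of_ne hpq with h | h
  · have := F.hcol h
    omega
  · have := F.hh' q p h
    omega

lemma piece_disjoint (S : ArcSystem V H L) (F : Frame L) {p q : Fin L} (hpq : p ≠ q) :
    Disjoint (Piece S F p) (Piece S F q) := by
  rw [Set.disjoint_left]
  rintro z (h1 | h1) (h2 | h2)
  · rcases h1 with h1 | h1 <;> rcases h2 with h2 | h2
    · exact (Set.disjoint_left.1 (arm_disjoint (nc_U S) (rows_of_strictMono F.hρ) F.hcol hpq))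
        h1 h2
    · exact piece_disjoint_aux S F hpq h1 h2
    · exact piece_disjoint_aux S F hpq.symm h2 h1
    · exact (Set.disjoint_left.1 (arm_disjoint (nc_Low S) (rows_of_strictAnti F.hσ) F.hcol hpq))
        h1 h2
  · exact piece_stub_aux S F hpq h1 h2
  · exact piece_stub_aux S F hpq.symm h2 h1
  · obtain ⟨a1, a2, a3⟩ := h1
    obtain ⟨b1, b2, b3⟩ := h2
    rcases lt_or_gt_of_ne hpq with h | h
    · have := F.hh' p q h
      omega
    · have := F.hh' q p h
      omega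

/-- the set of grid points of the vertex `v` -/
def Cls (S : ArcSystem V H L) (F : Frame L) (v : V) : Set (ℤ × ℤ) :=
  ⋃ p ∈ {p | S.lab p = v}, Piece S F p

lemma cls_join (S : ArcSystem V H L) (F : Frame L) (v : V) (n : ℕ) :
    ∀ p q : Fin L, S.lab p = v → S.lab q = v → p < q → q.val - p.val ≤ n →
      Join zgrid (Cls S F v) (F.col p, F.ρ 0) (F.col q, F.ρ 0) := by
  induction n with
  | zero =>
    intro p q _ _ h1 h2
    have : p.val < q.val := h1
    omega
  | succ n ih =>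
    intro p q hp hq h1 h2
    have hlt : p.val < q.val := h1
    by_cases hex : ∃ c, p < c ∧ c < q ∧ S.lab c = v
    · obtain ⟨c, c1, c2, c3⟩ := hex
      have d1 : p.val < c.val := c1
      have d2 : c.val < q.val := c2
      exact (ih p c hp c3 c1 (by omega)).trans (ih c q c3 hq c2 (by omega))
    · push Not at hex
      have hlow : Low S p q := ⟨h1, by rw [hp, hq], fun c c1 c2 => by
        rw [hp]; exact hex c c1 c2⟩
      obtain ⟨x, hx, y, hy, hxy⟩ := arm_adj (ρ := F.σ) (nc_Low S) F.hcol hlow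
      have hx' : x ∈ Piece S F p := Or.inl (Or.inr hx)
      have hy' : y ∈ Piece S F q := Or.inl (Or.inr hy)
      have s1 : Piece S F p ⊆ Cls S F v :=
        Set.subset_biUnion_of_mem (u := Piece S F) (show p ∈ {p | S.lab p = v} from hp)
      have s2 : Piece S F q ⊆ Cls S F v :=
        Set.subset_biUnion_of_mem (u := Piece S F) (show q ∈ {p | S.lab p = v} from hq)
      exact (((piece_join_base S F hx').mono s1).symm.trans
        (Join.single hxy (s1 hx') (s2 hy'))).trans ((piece_join_base S F hy').mono s2)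

lemma cls_conn (S : ArcSystem V H L) (F : Frame L) (v : V) : Conn zgrid (Cls S F v) := by
  obtain ⟨p, hp⟩ := S.surj v
  have sub : ∀ q, S.lab q = v → Piece S F q ⊆ Cls S F v := fun q hq =>
    Set.subset_biUnion_of_mem (u := Piece S F) (show q ∈ {p | S.lab p = v} from hq)
  refine conn_of_base (F.col p, F.ρ 0) (sub p hp (base_mem_piece S F p)) ?_
  intro z hz
  simp only [Cls, Set.mem_iUnion] at hz
  obtain ⟨q, hq, hz⟩ := hz
  have hq' : S.lab q = v := hq
  refine ((piece_join_base S F hz).mono (sub q hq')).trans ?_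
  rcases lt_trichotomy q p with h | h | h
  · exact cls_join S F v _ q p hq' hp h le_rfl
  · rw [h]; exact Join.refl _ _
  · exact (cls_join S F v _ p q hp hq' h le_rfl).symm

lemma cls_disjoint (S : ArcSystem V H L) (F : Frame L) {u v : V} (huv : u ≠ v) :
    Disjoint (Cls S F u) (Cls S F v) := by
  rw [Set.disjoint_left]
  intro z h1 h2
  simp only [Cls, Set.mem_iUnion] at h1 h2
  obtain ⟨p, hp, h1⟩ := h1
  obtain ⟨q, hq, h2⟩ := h2
  have hp' : S.lab p = u := hp
  have hq' : S.lab q = v := hq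
  have hpq : p ≠ q := by
    rintro rfl
    exact huv (hp'.symm.trans hq')
  exact Set.disjoint_left.1 (piece_disjoint S F hpq) h1 h2

lemma cls_adj (S : ArcSystem V H L) (F : Frame L) {u v : V} (huv : H.Adj u v) :
    ∃ x ∈ Cls S F u, ∃ y ∈ Cls S F v, zgrid.Adj x y := by
  obtain ⟨a, b, hab, h⟩ := S.edge u v huv
  obtain ⟨x, hx, y, hy, hxy⟩ := arm_adj (ρ := F.ρ) (nc_U S) F.hcol hab
  have hx' : x ∈ Piece S F a := Or.inl (Or.inl hx)
  have hy' : y ∈ Piece S F b := Or.inl (Or.inl hy)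
  rcases h with ⟨h1, h2⟩ | ⟨h1, h2⟩
  · exact ⟨x, Set.mem_biUnion (show a ∈ {p | S.lab p = u} from h1) hx', y,
      Set.mem_biUnion (show b ∈ {p | S.lab p = v} from h2) hy', hxy⟩
  · exact ⟨y, Set.mem_biUnion (show b ∈ {p | S.lab p = u} from h2) hy', x,
      Set.mem_biUnion (show a ∈ {p | S.lab p = v} from h1) hx', hxy.symm⟩

/-- the drawing uses only free points -/
lemma arm_free (R : Fin L → Fin L → Prop) (hR : NC R) {ρ : ℕ → ℤ} {col : Fin L → ℤ}
    (Free : ℤ × ℤ → Prop) (hvert : ∀ p, ∀ k < L, ∀ y ∈ Set.uIcc (ρ 0) (ρ k), Free (col p, y))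
    (hhor : ∀ k, 0 < k → k < L → ∀ p q, ∀ x, col p ≤ x → x < col q → Free (x, ρ k))
    {p : Fin L} {z : ℤ × ℤ} (hz : z ∈ Arm R ρ col p) : Free z := by
  rcases hz with ⟨h1, k, hk, hy⟩ | ⟨q, hq, h1, h2, h3⟩
  · have hkL : k < L := by
      have := p.2
      rcases hk with rfl | ⟨q, -, rfl⟩ | ⟨q, -, rfl⟩
      · omega
      · have := q.2; omega
      · omega
    have := hvert p k hkL z.2 hy
    rwa [← h1] at this
  · have h4 := hR.lt _ _ hq
    have h5 : p.val < q.val := h4
    have h6 := q.2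
    have := hhor (q.val - p.val) (by omega) (by omega) p q z.1 h2 h3
    rwa [← h1] at this

lemma cls_free (S : ArcSystem V H L) (F : Frame L) (Free : ℤ × ℤ → Prop)
    (hv1 : ∀ p, ∀ k < L, ∀ y ∈ Set.uIcc (F.ρ 0) (F.ρ k), Free (F.col p, y))
    (hv2 : ∀ p, ∀ k < L, ∀ y ∈ Set.uIcc (F.σ 0) (F.σ k), Free (F.col p, y))
    (hh1 : ∀ k, 0 < k → k < L → ∀ p q, ∀ x, F.col p ≤ x → x < F.col q → Free (x, F.ρ k))
    (hh2 : ∀ k, 0 < k → k < L → ∀ p q, ∀ x, F.col p ≤ x → x < F.col q → Free (x, F.σ k))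
    (hstub : ∀ p x, F.col p ≤ x → x < F.h p → Free (x, F.ρ 0))
    (v : V) {z : ℤ × ℤ} (hz : z ∈ Cls S F v) : Free z := by
  simp only [Cls, Set.mem_iUnion] at hz
  obtain ⟨p, -, (hz | hz) | hz⟩ := hz
  · exact arm_free _ (nc_U S) Free hv1 hh1 hz
  · exact arm_free _ (nc_Low S) Free hv2 hh2 hz
  · have := hstub p z.1 hz.2.1 hz.2.2
    rwa [← hz.1] at this

end Pool.Agent.Lib.MP_69d199_co
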