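import Mathlib

/-!
# The sweep: the vertical order of non-crossing segments
-/

set_option autoImplicit false

namespace Pool.Agent.Lib.MP_69d199_co

/-- height at abscissa `x` of the line through the points `i` and `j` -/
noncomputable def seg (X Y : ℕ → ℝ) (i j : ℕ) (x : ℝ) : ℝ :=
  Y i + (Y j - Y i) * ((x - X i) / (X j - X i))

lemma seg_continuous (X Y : ℕ → ℝ) (i j : ℕ) : Continuous (seg X Y i j) := by
  unfold seg
  fun_prop

lemma seg_left (X Y : ℕ → ℝ) (i j : ℕ) : seg X Y i j (X i) = Y i := by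
  simp [seg]

lemma seg_right (X Y : ℕ → ℝ) (i j : ℕ) (h : X i < X j) : seg X Y i j (X j) = Y j := by
  have : X j - X i ≠ 0 := by linarith
  simp [seg, div_self this]

/-- A straight-line drawing with vertices `0, …, s-1` sorted by abscissa. `E i j` means that
`i < j` and `ij` is an edge. -/
structure Drawing (s : ℕ) (X Y : ℕ → ℝ) (E : ℕ → ℕ → Prop) : Prop where
  lt : ∀ i j, E i j → i < j ∧ j < s
  mono : ∀ i j, i < j → j < s → X i < X j
  nc1 : ∀ i j k, E i j → i < k → k < j → seg X Y i j (X k) ≠ Y k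
  nc2 : ∀ i j k l, E i j → E k l → (i ≠ k ∨ j ≠ l) → ∀ x, X i < x → x < X j → X k < x → x < X l →
    seg X Y i j x ≠ seg X Y k l x

/-- the edge `ij` is below the edge `kl` somewhere above the common open abscissa range -/
def Bel (X Y : ℕ → ℝ) (i j k l : ℕ) : Prop :=
  ∃ x, X i < x ∧ x < X j ∧ X k < x ∧ x < X l ∧ seg X Y i j x < seg X Y k l x

variable {s : ℕ} {X Y : ℕ → ℝ} {E : ℕ → ℕ → Prop}

lemma Drawing.Xlt (D : Drawing s X Y E) {i j : ℕ} (h : E i j) : X i < X j :=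
  D.mono i j (D.lt i j h).1 (D.lt i j h).2

lemma Drawing.bel_common (D : Drawing s X Y E) {i j k l : ℕ} (h1 : E i j) (h2 : E k l)
    (hb : Bel X Y i j k l) {x : ℝ} (a1 : X i < x) (a2 : x < X j) (a3 : X k < x) (a4 : x < X l) :
    seg X Y i j x < seg X Y k l x := by
  obtain ⟨x', b1, b2, b3, b4, hlt⟩ := hb
  have hne : i ≠ k ∨ j ≠ l := by
    by_contra hcon
    push Not at hcon
    obtain ⟨rfl, rfl⟩ := hcon
    exact lt_irrefl _ hlt
  by_contra hcon
  have hge : seg X Y k l x ≤ seg X Y i j x := not_lt.1 hcon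
  have hcont : Continuous (fun z => seg X Y k l z - seg X Y i j z) :=
    (seg_continuous X Y k l).sub (seg_continuous X Y i j)
  have h0 : (0 : ℝ) ∈ Set.uIcc ((fun z => seg X Y k l z - seg X Y i j z) x)
      ((fun z => seg X Y k l z - seg X Y i j z) x') := by
    apply Set.Icc_subset_uIcc
    constructor
    · simpa using hge
    · simpa using hlt.le
  obtain ⟨z, hz, hz0⟩ := intermediate_value_uIcc hcont.continuousOn h0
  have hz0' : seg X Y k l z = seg X Y i j z := by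
    have : seg X Y k l z - seg X Y i j z = 0 := hz0
    linarith
  rw [Set.mem_uIcc] at hz
  have c1 : X i < z := by rcases hz with h | h <;> linarith [h.1, h.2]
  have c2 : z < X j := by rcases hz with h | h <;> linarith [h.1, h.2]
  have c3 : X k < z := by rcases hz with h | h <;> linarith [h.1, h.2]
  have c4 : z < X l := by rcases hz with h | h <;> linarith [h.1, h.2]
  exact D.nc2 i j k l h1 h2 hne z c1 c2 c3 c4 hz0'.symm

lemma Drawing.bel_asymm (D : Drawing s X Y E) {i j k l : ℕ} (h1 : E i j) (h2 : E k l)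
    (hb : Bel X Y i j k l) (hb' : Bel X Y k l i j) : False := by
  obtain ⟨x, a1, a2, a3, a4, hlt⟩ := hb'
  have := D.bel_common h1 h2 hb a3 a4 a1 a2
  exact lt_asymm this hlt

/-- if at a common abscissa of the closed right ends the second is higher, then below -/
lemma bel_of_right {i j k l : ℕ} {x : ℝ} (a1 : X i < x) (a2 : x ≤ X j) (a3 : X k < x)
    (a4 : x ≤ X l) (h : seg X Y i j x < seg X Y k l x) : Bel X Y i j k l := by
  have hev : ∀ᶠ z in nhdsWithin x (Set.Iio x), seg X Y i j z < seg X Y k l z := by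
    have h1 : ∀ᶠ z in nhds x, seg X Y i j z < seg X Y k l z :=
      (seg_continuous X Y i j).continuousAt.eventually_lt (seg_continuous X Y k l).continuousAt h
    exact h1.filter_mono nhdsWithin_le_nhds
  have h2 : ∀ᶠ z in nhdsWithin x (Set.Iio x), z ∈ Set.Ioo (max (X i) (X k)) x :=
    Ioo_mem_nhdsLT (max_lt a1 a3)
  obtain ⟨z, hz1, hz2⟩ := (hev.and h2).exists
  have h3 := (max_lt_iff.1 hz2.1)
  exact ⟨z, h3.1, lt_of_lt_of_le hz2.2 a2, h3.2, lt_of_lt_of_le hz2.2 a4, hz1⟩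

lemma bel_of_left {i j k l : ℕ} {x : ℝ} (a1 : X i ≤ x) (a2 : x < X j) (a3 : X k ≤ x)
    (a4 : x < X l) (h : seg X Y i j x < seg X Y k l x) : Bel X Y i j k l := by
  have hev : ∀ᶠ z in nhdsWithin x (Set.Ioi x), seg X Y i j z < seg X Y k l z := by
    have h1 : ∀ᶠ z in nhds x, seg X Y i j z < seg X Y k l z :=
      (seg_continuous X Y i j).continuousAt.eventually_lt (seg_continuous X Y k l).continuousAt h
    exact h1.filter_mono nhdsWithin_le_nhds
  have h2 : ∀ᶠ z in nhdsWithin x (Set.Ioi x), z ∈ Set.Ioo x (min (X j) (X l)) :=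
    Ioo_mem_nhdsGT (lt_min a2 a4)
  obtain ⟨z, hz1, hz2⟩ := (hev.and h2).exists
  have h3 := (lt_min_iff.1 hz2.2)
  exact ⟨z, lt_of_le_of_lt a1 hz2.1, h3.1, lt_of_le_of_lt a3 hz2.1, h3.2, hz1⟩

/-- the edge `ij` passes above the vertex `m` -/
def Above (X Y : ℕ → ℝ) (m i j : ℕ) : Prop := Y m < seg X Y i j (X m)

lemma Drawing.not_above (D : Drawing s X Y E) {m i j : ℕ} (h : E i j) (h1 : i < m) (h2 : m < j)
    (hn : ¬ Above X Y m i j) : seg X Y i j (X m) < Y m :=
  lt_of_le_of_ne (not_lt.1 hn) (D.nc1 i j m h h1 h2)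

/-- (F1) -/
lemma Drawing.above_of_bel (D : Drawing s X Y E) {m i j k l : ℕ} (h : E i j) (h' : E k l)
    (h1 : i < m) (h2 : m < j) (h3 : k < m) (h4 : m < l) (hb : Bel X Y i j k l)
    (ha : Above X Y m i j) : Above X Y m k l := by
  have hj := (D.lt i j h).2
  have hl := (D.lt k l h').2
  exact lt_trans ha (D.bel_common h h' hb (D.mono _ _ h1 (by omega)) (D.mono _ _ h2 hj)
    (D.mono _ _ h3 (by omega)) (D.mono _ _ h4 hl))

/-- (F4) -/
lemma Drawing.bel_of_below_above (D : Drawing s X Y E) {m i j k l : ℕ} (h : E i j) (h' : E k l)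
    (h1 : i < m) (h2 : m < j) (h3 : k < m) (h4 : m < l) (ha : ¬ Above X Y m i j)
    (ha' : Above X Y m k l) : Bel X Y i j k l := by
  have hj := (D.lt i j h).2
  have hl := (D.lt k l h').2
  exact ⟨X m, D.mono _ _ h1 (by omega), D.mono _ _ h2 hj, D.mono _ _ h3 (by omega),
    D.mono _ _ h4 hl, lt_trans (D.not_above h h1 h2 ha) ha'⟩

/-- (F3) incoming edge and an edge passing above -/
lemma Drawing.in_bel_above (D : Drawing s X Y E) {m i k l : ℕ} (h : E i m) (h' : E k l)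
    (h3 : k < m) (h4 : m < l) (ha : Above X Y m k l) : Bel X Y i m k l := by
  have hl := (D.lt k l h').2
  have hi := (D.lt i m h)
  refine bel_of_right (x := X m) (D.mono _ _ hi.1 hi.2) le_rfl (D.mono _ _ h3 (by omega))
    (D.mono _ _ h4 hl).le ?_
  rw [seg_right X Y i m (D.mono _ _ hi.1 hi.2)]
  exact ha

lemma Drawing.below_bel_in (D : Drawing s X Y E) {m i k l : ℕ} (h : E i m) (h' : E k l)
    (h3 : k < m) (h4 : m < l) (ha : ¬ Above X Y m k l) : Bel X Y k l i m := by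
  have hl := (D.lt k l h').2
  have hi := (D.lt i m h)
  refine bel_of_right (x := X m) (D.mono _ _ h3 (by omega))
    (D.mono _ _ h4 hl).le (D.mono _ _ hi.1 hi.2) le_rfl ?_
  rw [seg_right X Y i m (D.mono _ _ hi.1 hi.2)]
  exact D.not_above h' h3 h4 ha

/-- (F2) outgoing edge and an edge passing above -/
lemma Drawing.out_bel_above (D : Drawing s X Y E) {m j k l : ℕ} (h : E m j) (h' : E k l)
    (h3 : k < m) (h4 : m < l) (ha : Above X Y m k l) : Bel X Y m j k l := by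
  have hl := (D.lt k l h').2
  have hi := (D.lt m j h)
  refine bel_of_left (x := X m) le_rfl (D.mono _ _ hi.1 hi.2) (D.mono _ _ h3 (by omega)).le
    (D.mono _ _ h4 hl) ?_
  rw [seg_left]
  exact ha

lemma Drawing.below_bel_out (D : Drawing s X Y E) {m j k l : ℕ} (h : E m j) (h' : E k l)
    (h3 : k < m) (h4 : m < l) (ha : ¬ Above X Y m k l) : Bel X Y k l m j := by
  have hl := (D.lt k l h').2
  have hi := (D.lt m j h)
  refine bel_of_left (x := X m) (D.mono _ _ h3 (by omega)).le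
    (D.mono _ _ h4 hl) le_rfl (D.mono _ _ hi.1 hi.2) ?_
  rw [seg_left]
  exact D.not_above h' h3 h4 ha

/-- any two incoming edges of `m` are comparable -/
lemma Drawing.exists_lowest_in (D : Drawing s X Y E) {m : ℕ} (hin : ∃ i, E i m) :
    ∃ i₀, E i₀ m ∧ ∀ i, E i m → i ≠ i₀ → Bel X Y i₀ m i m := by
  obtain ⟨i₁, hi₁⟩ := hin
  have hm := (D.lt i₁ m hi₁)
  -- an abscissa in the slab left of m
  set x₀ : ℝ := (X (m - 1) + X m) / 2 with hx₀
  have hlast : X (m - 1) < X m := D.mono _ _ (by omega) hm.2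
  have hx1 : X (m - 1) < x₀ := by rw [hx₀]; linarith
  have hx2 : x₀ < X m := by rw [hx₀]; linarith
  have hxi : ∀ i, i < m → X i < x₀ := by
    intro i hi
    rcases Nat.lt_or_ge i (m - 1) with h | h
    · exact lt_trans (D.mono _ _ h (by omega)) hx1
    · have : i = m - 1 := by omega
      rw [this]; exact hx1
  classical
  have hne : ((Finset.range m).filter (fun i => E i m)).Nonempty :=
    ⟨i₁, by simp [hm.1, hi₁]⟩
  obtain ⟨i₀, hi₀, hmin⟩ := Finset.exists_min_image _ (fun i => seg X Y i m x₀) hne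
  have hi₀' : i₀ < m ∧ E i₀ m := by simpa using hi₀
  refine ⟨i₀, hi₀'.2, fun i hi hne' => ?_⟩
  have him := (D.lt i m hi).1
  have h1 := hmin i (by simp [him, hi])
  have h2 := D.nc2 i₀ m i m hi₀'.2 hi (Or.inl (Ne.symm hne')) x₀ (hxi _ hi₀'.1) hx2 (hxi _ him) hx2
  exact ⟨x₀, hxi _ hi₀'.1, hx2, hxi _ him, hx2, lt_of_le_of_ne h1 h2⟩

/-- among the edges passing below `m` there is a highest one -/
lemma Drawing.exists_highest_below (D : Drawing s X Y E) {m : ℕ}
    (hex : ∃ k l, E k l ∧ k < m ∧ m < l ∧ ¬ Above X Y m k l) :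
    ∃ k₀ l₀, E k₀ l₀ ∧ k₀ < m ∧ m < l₀ ∧ ¬ Above X Y m k₀ l₀ ∧
      ∀ k l, E k l → k < m → m < l → ¬ Above X Y m k l → (k ≠ k₀ ∨ l ≠ l₀) →
        Bel X Y k l k₀ l₀ := by
  classical
  obtain ⟨k₁, l₁, e₁, hk₁, hl₁, ha₁⟩ := hex
  have hne : (((Finset.range s) ×ˢ (Finset.range s)).filter
      (fun p : ℕ × ℕ => E p.1 p.2 ∧ p.1 < m ∧ m < p.2 ∧ ¬ Above X Y m p.1 p.2)).Nonempty :=
    ⟨(k₁, l₁), by
      have := D.lt _ _ e₁
      simp only [Finset.mem_filter, Finset.mem_product, Finset.mem_range]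
      exact ⟨⟨by omega, this.2⟩, e₁, hk₁, hl₁, ha₁⟩⟩
  obtain ⟨⟨k₀, l₀⟩, h₀, hmax⟩ := Finset.exists_max_image _
    (fun p : ℕ × ℕ => seg X Y p.1 p.2 (X m)) hne
  simp only [Finset.mem_filter, Finset.mem_product, Finset.mem_range] at h₀
  refine ⟨k₀, l₀, h₀.2.1, h₀.2.2.1, h₀.2.2.2.1, h₀.2.2.2.2, fun k l e hk hl ha hne' => ?_⟩
  have hkl := D.lt _ _ e
  have h1 := hmax (k, l) (by
    simp only [Finset.mem_filter, Finset.mem_product, Finset.mem_range]
    exact ⟨⟨by omega, hkl.2⟩, e, hk, hl, ha⟩)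
  have hl₀ := (D.lt _ _ h₀.2.1).2
  have a1 : X k < X m := D.mono _ _ hk (by omega)
  have a2 : X m < X l := D.mono _ _ hl hkl.2
  have a3 : X k₀ < X m := D.mono _ _ h₀.2.2.1 (by omega)
  have a4 : X m < X l₀ := D.mono _ _ h₀.2.2.2.1 hl₀
  have h2 := D.nc2 k l k₀ l₀ e h₀.2.1 hne' (X m) a1 a2 a3 a4
  exact ⟨X m, a1, a2, a3, a4, lt_of_le_of_ne h1 h2⟩

end Pool.Agent.Lib.MP_69d199_co
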