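import Pool.Agent.Lib.MP_69d199_co.Main

/-!
# Grid minors in apex-minor-free graphs of bounded radius: the bound `O(rd + t)`, so `O(rt)`
-/

set_option autoImplicit false

namespace Pool.Agent.Lib.MP_69d199_co.LinearBoundResult

open Pool.Agent.Lib.MP_69d199_co

/-- (1) Let `A` be a finite graph with `t` vertices and `z` a vertex of degree `d` of `A` such that
`A - z` is planar, let `G` be a graph of radius at most `r` and let the `n × n` grid be a minor of
`G`. If `A` is not a minor of `G`, then `n < 8t + (4d + 2)(2r + 3)`.
(2) Every `n` counted by `N(t, r)` satisfies `n < 8rt + 20t`. -/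
theorem result :
    (∀ (V W : Type) [Fintype V] (A : SimpleGraph V) (z : V) (G : SimpleGraph W) (r n : ℕ),
      IsApexAt A z → RadiusAtMost G r → IsMinor (grid n) G → ¬ IsMinor A G →
        n < 8 * Fintype.card V + (4 * (A.neighborSet z).ncard + 2) * (2 * r + 3)) ∧
    (∀ t r n : ℕ, n ∈ gridSizes t r → n < 8 * r * t + 20 * t) := by
  refine ⟨?_, fun t r n h => gridSizes_lt t r n h⟩
  intro V W _ A z G r n hA hG hgrid hnot
  by_contra hcon
  exact hnot (isMinor_of_large_grid A z G r n hA hG hgrid (not_lt.1 hcon))

end Pool.Agent.Lib.MP_69d199_co.LinearBoundResult
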