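import Pool.Agent.Lib.MP_69d199_co.Core

/-!
# Linear bound for grid minors in apex-minor-free graphs of bounded radius
-/

set_option autoImplicit false

namespace Pool.Agent.Lib.MP_69d199_co

theorem isMinor_of_large_grid {V W : Type} [Fintype V] (A : SimpleGraph V) (z : V)
    (G : SimpleGraph W) (r n : ℕ) (hA : IsApexAt A z) (hG : RadiusAtMost G r)
    (hgrid : IsMinor (grid n) G)
    (hn : 8 * Fintype.card V + (4 * (A.neighborSet z).ncard + 2) * (2 * r + 3) ≤ n) :
    IsMinor A G := by
  classical
  obtain ⟨α, hα⟩ := hG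
  obtain ⟨B, hBc, hBd, hBa⟩ := hgrid
  obtain ⟨L, hL, ⟨S⟩⟩ := exists_arcSystem _ hA
  have hcard : Fintype.card {v : V | v ≠ z} + 1 = Fintype.card V := by
    have h1 : Fintype.card {v : V | v ≠ z} = Fintype.card V - 1 := Set.card_ne_eq z
    have h2 : 0 < Fintype.card V := Fintype.card_pos_iff.2 ⟨z⟩
    omega
  -- the marked positions
  choose ps hps using S.surj
  set D : Finset ℕ := (Finset.univ.filter (fun v : {v : V | v ≠ z} => A.Adj z v)).image
    (fun v => (ps v).val) with hD
  have hDcard : D.card ≤ (A.neighborSet z).ncard := by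
    refine Finset.card_image_le.trans ?_
    rw [Set.ncard_eq_toFinset_card']
    apply Finset.card_le_card_of_injOn (fun v : {v : V | v ≠ z} => (v : V))
    · intro v hv
      have := (Finset.mem_filter.1 hv).2
      simpa using this
    · intro a _ b _ hab
      exact Subtype.ext hab
  obtain ⟨Z, X, hZ, hX, hXd, hXZ, hXa, hmark⟩ := core S D hDcard G α hα B
    (fun v => conn_of_connected (hBc v)) hBd hBa (by omega)
  refine ⟨fun v => if h : v = z then Z else X ⟨v, h⟩, ?_, ?_, ?_⟩
  · intro v
    show (G.induce (if h : v = z then Z else X ⟨v, h⟩)).Connected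
    by_cases h : v = z
    · rw [dif_pos h]; exact hZ.connected
    · rw [dif_neg h]; exact (hX _).connected
  · intro u v huv
    by_cases hu : u = z
    · have hv : ¬ v = z := fun h => huv (hu.trans h.symm)
      simp only [hu, dif_pos, hv, dif_neg, not_false_iff]
      exact (hXZ _).symm
    · by_cases hv : v = z
      · simp only [hu, dif_neg, not_false_iff, hv, dif_pos]
        exact hXZ _
      · simp only [hu, hv, dif_neg, not_false_iff]
        exact hXd _ _ (fun h => huv (congrArg Subtype.val h))
  · have key : ∀ v : V, ∀ h : ¬ v = z, A.Adj z v → ∃ x ∈ X ⟨v, h⟩, ∃ y ∈ Z, G.Adj x y := by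
      intro v h hadj
      have h1 : (ps ⟨v, h⟩).val ∈ D := by
        rw [hD, Finset.mem_image]
        exact ⟨⟨v, h⟩, by simpa using hadj, rfl⟩
      have h2 := hmark _ h1
      rw [hps] at h2
      exact h2
    intro u v huv
    by_cases hu : u = z
    · have hv : ¬ v = z := fun h => huv.ne (hu.trans h.symm)
      simp only [hu, dif_pos, hv, dif_neg, not_false_iff]
      obtain ⟨x, hx, y, hy, hxy⟩ := key v hv (hu ▸ huv)
      exact ⟨y, hy, x, hx, hxy.symm⟩
    · by_cases hv : v = z
      · simp only [hu, dif_neg, not_false_iff, hv, dif_pos]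
        exact key u hu (hv ▸ huv.symm)
      · simp only [hu, hv, dif_neg, not_false_iff]
        exact hXa _ _ huv

theorem gridSizes_lt (t r : ℕ) (n : ℕ) (hn : n ∈ gridSizes t r) :
    n < 8 * r * t + 20 * t := by
  obtain ⟨V, W, _, _, A, G, hV, ⟨z, hz⟩, hr, hA, hg⟩ := hn
  have h2 : 0 < Fintype.card V := Fintype.card_pos_iff.2 ⟨z⟩
  by_contra hcon
  apply hA
  refine isMinor_of_large_grid A z G r n hz hr hg ?_
  have h3 : (A.neighborSet z).ncard + 1 ≤ Fintype.card V := by
    have h4 : (A.neighborSet z).ncard < (Set.univ : Set V).ncard := by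
      apply Set.ncard_lt_ncard _ (Set.finite_univ)
      refine ⟨Set.subset_univ _, fun h => ?_⟩
      have := h (Set.mem_univ z)
      exact A.loopless.irrefl z this
    rw [Set.ncard_univ, Nat.card_eq_fintype_card] at h4
    omega
  rw [hV] at h3 h2 ⊢
  have h5 : (4 * (A.neighborSet z).ncard + 2) * (2 * r + 3) ≤ (4 * t) * (2 * r + 3) :=
    Nat.mul_le_mul_right _ (by omega)
  have h6 : (4 * t) * (2 * r + 3) = 8 * r * t + 12 * t := by ring
  omega

end Pool.Agent.Lib.MP_69d199_co
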